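import Pool.Agent.Helper41.SV.Main

/-!
Dimension four: the 1-cycle which is dual to a cocycle of a full subcomplex.
-/

set_option autoImplicit false

open scoped Classical

namespace Pool.Agent.Helper41.SV

open Pool.Agent.W907.SG (W cox)
open Pool.Agent.Q134.SV Pool.Agent.N13.QC

/-- the oriented edge `x y`, as a 1-chain (an antisymmetric function of two vertices) -/
def edg {V : Type} [DecidableEq V] (x y : V) : V → V → ℝ := fun s t =>
  (if s = x ∧ t = y then 1 else 0) - (if s = y ∧ t = x then 1 else 0)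

/-- the 1-chains which are real combinations of boundaries of triangles and of closed walks of length
four, in the full subcomplex on `B` -/
noncomputable def SqSpan {V : Type} (G : SimpleGraph V) (B : V → Prop) : Submodule ℝ (V → V → ℝ) :=
  Submodule.span ℝ
    ({c | ∃ x y z, B x ∧ B y ∧ B z ∧ G.Adj x y ∧ G.Adj y z ∧ G.Adj z x ∧
        c = edg x y + edg y z + edg z x} ∪
      {c | ∃ x y z w, B x ∧ B y ∧ B z ∧ B w ∧ G.Adj x y ∧ G.Adj y z ∧ G.Adj z w ∧ G.Adj w x ∧
        c = edg x y + edg y z + edg z w + edg w x})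

section

variable {V : Type}

theorem edg_anti (x y : V) : edg x y = - edg y x := by
  funext s t
  simp only [edg, Pi.neg_apply]
  ring

theorem sum_edg [Fintype V] (c : V → V → ℝ) (hc : ∀ s t, c s t = - c t s) :
    ∑ s, ∑ t, c s t • (edg s t : V → V → ℝ) = (2 : ℝ) • c := by
  have h1 : ∑ s, ∑ t, c s t • (fun s' t' => if s' = s ∧ t' = t then (1 : ℝ) else 0) = c := by
    funext s' t'
    simp only [Finset.sum_apply, Pi.smul_apply, smul_eq_mul]
    rw [Finset.sum_eq_single s', Finset.sum_eq_single t']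
    · simp
    · intro b _ hb
      rw [if_neg (fun h => hb h.2.symm), mul_zero]
    · intro h; exact absurd (Finset.mem_univ _) h
    · intro b _ hb
      refine Finset.sum_eq_zero fun t _ => ?_
      rw [if_neg (fun h => hb h.1.symm), mul_zero]
    · intro h; exact absurd (Finset.mem_univ _) h
  have h2 : ∑ s, ∑ t, c s t • (fun s' t' => if s' = t ∧ t' = s then (1 : ℝ) else 0) = - c := by
    rw [Finset.sum_comm]
    have : ∀ t s : V, c s t • (fun s' t' : V => if s' = t ∧ t' = s then (1 : ℝ) else 0) =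
        - (c t s • (fun s' t' : V => if s' = t ∧ t' = s then (1 : ℝ) else 0)) := by
      intro t s
      rw [hc s t, neg_smul]
    simp only [this, Finset.sum_neg_distrib]
    rw [h1]
  have h3 : ∀ s t : V, c s t • (edg s t : V → V → ℝ) =
      c s t • (fun s' t' => if s' = s ∧ t' = t then (1 : ℝ) else 0) -
      c s t • (fun s' t' => if s' = t ∧ t' = s then (1 : ℝ) else 0) := by
    intro s t
    funext s' t'
    simp only [edg, Pi.smul_apply, Pi.sub_apply, smul_eq_mul]
    ring
  simp only [h3, Finset.sum_sub_distrib]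
  rw [h1, h2]
  funext s t
  simp only [Pi.sub_apply, Pi.neg_apply, Pi.smul_apply, smul_eq_mul]
  ring

/-- a chain which is not a combination of triangles and squares is detected by a cocycle which
vanishes on squares -/
theorem exists_detect [Fintype V] (G : SimpleGraph V) (B : V → Prop) (c : V → V → ℝ)
    (hc : ∀ s t, c s t = - c t s) (hn : c ∉ SqSpan G B) :
    ∃ ψ : V → V → ℝ, SqFree (GA G B) (fun a b => ψ a.1 b.1) ∧ (∀ s t, ψ s t = - ψ t s) ∧
      ∑ s, ∑ t, c s t * ψ s t ≠ 0 := by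
  obtain ⟨f, hf1, hf2⟩ := Submodule.exists_le_ker_of_notMem hn
  refine ⟨fun s t => f (edg s t), ⟨?_, ?_, ?_⟩, ?_, ?_⟩
  · intro a b
    change f (edg a.1 b.1) = - f (edg b.1 a.1)
    rw [edg_anti, map_neg]
  · intro a b d h1 h2 h3
    change f (edg a.1 b.1) + f (edg b.1 d.1) = f (edg a.1 d.1)
    have : (edg a.1 b.1 + edg b.1 d.1 + edg d.1 a.1 : V → V → ℝ) ∈ SqSpan G B :=
      Submodule.subset_span (Or.inl ⟨a.1, b.1, d.1, a.2, b.2, d.2, h1, h2, h3.symm, rfl⟩)
    have h4 : f (edg a.1 b.1 + edg b.1 d.1 + edg d.1 a.1) = 0 := hf2 this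
    rw [map_add, map_add, edg_anti d.1 a.1, map_neg] at h4
    linarith
  · intro a b z z' h1 h2 h3 h4
    change f (edg a.1 z.1) + f (edg z.1 b.1) = f (edg a.1 z'.1) + f (edg z'.1 b.1)
    have : (edg a.1 z.1 + edg z.1 b.1 + edg b.1 z'.1 + edg z'.1 a.1 : V → V → ℝ) ∈ SqSpan G B :=
      Submodule.subset_span (Or.inr ⟨a.1, z.1, b.1, z'.1, a.2, z.2, b.2, z'.2, h1, h2, h4.symm,
        h3.symm, rfl⟩)
    have h5 : f (edg a.1 z.1 + edg z.1 b.1 + edg b.1 z'.1 + edg z'.1 a.1) = 0 := hf2 this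
    rw [map_add, map_add, map_add, edg_anti b.1 z'.1, edg_anti z'.1 a.1, map_neg, map_neg] at h5
    linarith
  · intro s t
    change f (edg s t) = - f (edg t s)
    rw [edg_anti, map_neg]
  · have h : ∑ s, ∑ t, c s t * f (edg s t) = 2 * f c := by
      rw [← smul_eq_mul (2 : ℝ), ← map_smul, ← sum_edg c hc, map_sum]
      refine Finset.sum_congr rfl fun s _ => ?_
      rw [map_sum]
      refine Finset.sum_congr rfl fun t _ => ?_
      rw [map_smul, smul_eq_mul]
    change ∑ s, ∑ t, c s t * f (edg s t) ≠ 0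
    rw [h]
    exact mul_ne_zero two_ne_zero hf1

theorem sum_cons [Fintype V] {n : ℕ} (F : (Fin (n + 1) → V) → ℝ) :
    ∑ v, F v = ∑ x, ∑ w : Fin n → V, F (Fin.cons x w) := by
  rw [← (Fin.consEquiv (fun _ => V)).sum_comp, Fintype.sum_prod_type]
  rfl

theorem sum_four [Fintype V] (F : (Fin 4 → V) → ℝ) :
    ∑ v, F v = ∑ x, ∑ y, ∑ s, ∑ t, F ![x, y, s, t] := by
  rw [sum_cons]
  refine Finset.sum_congr rfl fun x _ => ?_
  rw [sum_cons]
  refine Finset.sum_congr rfl fun y _ => ?_
  rw [sum_cons]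
  refine Finset.sum_congr rfl fun s _ => ?_
  rw [sum_cons]
  refine Finset.sum_congr rfl fun t _ => ?_
  rw [Fintype.sum_unique]
  congr 1

theorem alt_swap01 [Fintype V] {G : SimpleGraph V} {a : (Fin 4 → V) → ℝ} (ha : IsCyc 4 G a)
    (x y s t : V) : a ![y, x, s, t] = - a ![x, y, s, t] := by
  rw [← ha.alt ![x, y, s, t] 0 1 (by decide)]
  congr 1
  funext i
  fin_cases i <;> rfl

theorem alt_swap23 [Fintype V] {G : SimpleGraph V} {a : (Fin 4 → V) → ℝ} (ha : IsCyc 4 G a)
    (x y s t : V) : a ![x, y, t, s] = - a ![x, y, s, t] := by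
  rw [← ha.alt ![x, y, s, t] 2 3 (by decide)]
  congr 1
  funext i
  fin_cases i <;> rfl

/-- the 1-chain of the full subcomplex on the complement of `A` which is dual to `φ` -/
noncomputable def dualC [Fintype V] (A : V → Prop) (φ : V → V → ℝ) (a : (Fin 4 → V) → ℝ) :
    V → V → ℝ := fun s t =>
  if ¬ A s ∧ ¬ A t then ∑ x, ∑ y, (if A x ∧ A y then φ x y else 0) * a ![x, y, s, t] else 0

theorem dualC_anti [Fintype V] {G : SimpleGraph V} (A : V → Prop) (φ : V → V → ℝ)
    {a : (Fin 4 → V) → ℝ} (ha : IsCyc 4 G a) (s t : V) : dualC A φ a s t = - dualC A φ a t s := by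
  unfold dualC
  by_cases h : ¬ A s ∧ ¬ A t
  · rw [if_pos h, if_pos h.symm, ← Finset.sum_neg_distrib]
    refine Finset.sum_congr rfl fun x _ => ?_
    rw [← Finset.sum_neg_distrib]
    refine Finset.sum_congr rfl fun y _ => ?_
    rw [alt_swap23 ha x y t s]
    ring
  · rw [if_neg h, if_neg (fun h' => h h'.symm), neg_zero]

/-- If the simplicial volume vanishes then the 1-cycles which are dual to cocycles vanishing on the
squares are combinations of triangles and squares. -/
theorem dim4 [Fintype V] (G : SimpleGraph V) (A : V → Prop) (φ : V → V → ℝ)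
    (hφ : SqFree (GA G A) fun a b => φ a.1 b.1) (a : (Fin 4 → V) → ℝ) (ha : IsCyc 4 G a)
    (H : Subgroup (W G)) (hi : H.index ≠ 0) (hε : H ≤ (par G).ker) (hs : svol G 4 a H = 0) :
    dualC A φ a ∈ SqSpan G fun v => ¬ A v := by
  by_contra hn
  obtain ⟨ψ, h1, h2, h3⟩ := exists_detect G (fun v => ¬ A v) (dualC A φ a) (dualC_anti A φ ha) hn
  let cl : V → Fin 2 := fun v => if A v then 0 else 1
  have hcl0 : ∀ v, cl v = 0 ↔ A v := by
    intro v
    by_cases h : A v
    · simp [cl, h]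
    · simp [cl, h]
  have hcl1 : ∀ v, cl v = 1 ↔ ¬ A v := by
    intro v
    by_cases h : A v
    · simp [cl, h]
    · simp [cl, h]
  let Φ : Fin 2 → V → V → ℝ := ![φ, ψ]
  let B : Fin 2 → ℝ := fun i => ∑ s, ∑ t, |Φ i s t|
  have hB0 : ∀ i, 0 ≤ B i := fun i => Finset.sum_nonneg fun s _ => Finset.sum_nonneg fun t _ =>
    abs_nonneg _
  have hB : ∀ (i : Fin 2) x y, cl x = i → cl y = i → G.Adj x y → |Φ i x y| ≤ B i := by
    intro i x y _ _ _
    calc |Φ i x y| ≤ ∑ t, |Φ i x t| :=
          Finset.single_le_sum (f := fun t => |Φ i x t|) (fun _ _ => abs_nonneg _)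
            (Finset.mem_univ y)
      _ ≤ B i := Finset.single_le_sum (f := fun s => ∑ t, |Φ i s t|)
            (fun _ _ => Finset.sum_nonneg fun t _ => abs_nonneg _) (Finset.mem_univ x)
  have hΦ : ∀ i, SqFree (GA G fun v => cl v = i) fun x y => Φ i x.1 y.1 := by
    intro i
    fin_cases i
    · refine ⟨fun x y => ?_, fun x y z => ?_, fun x y z w => ?_⟩
      · exact hφ.anti ⟨x.1, (hcl0 _).1 x.2⟩ ⟨y.1, (hcl0 _).1 y.2⟩
      · exact hφ.tri ⟨x.1, (hcl0 _).1 x.2⟩ ⟨y.1, (hcl0 _).1 y.2⟩ ⟨z.1, (hcl0 _).1 z.2⟩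
      · exact hφ.sq ⟨x.1, (hcl0 _).1 x.2⟩ ⟨y.1, (hcl0 _).1 y.2⟩ ⟨z.1, (hcl0 _).1 z.2⟩
          ⟨w.1, (hcl0 _).1 w.2⟩
    · refine ⟨fun x y => ?_, fun x y z => ?_, fun x y z w => ?_⟩
      · exact h1.anti ⟨x.1, (hcl1 _).1 x.2⟩ ⟨y.1, (hcl1 _).1 y.2⟩
      · exact h1.tri ⟨x.1, (hcl1 _).1 x.2⟩ ⟨y.1, (hcl1 _).1 y.2⟩ ⟨z.1, (hcl1 _).1 z.2⟩
      · exact h1.sq ⟨x.1, (hcl1 _).1 x.2⟩ ⟨y.1, (hcl1 _).1 y.2⟩ ⟨z.1, (hcl1 _).1 z.2⟩
          ⟨w.1, (hcl1 _).1 w.2⟩
  have h := main 2 V G cl Φ B hΦ hB0 hB a ha H hi hε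
  change (H.index : ℝ) * _ ≤ _ * svol G 4 a H at h
  rw [hs, mul_zero] at h
  have hpos : (0 : ℝ) < H.index := by exact_mod_cast Nat.pos_of_ne_zero hi
  have h0 : ∑ v : Fin (2 * 2) → V, a v * ∏ i : Fin 2,
        (if cl (v ⟨2 * i, by omega⟩) = i ∧ cl (v ⟨2 * i + 1, by omega⟩) = i then
          Φ i (v ⟨2 * i, by omega⟩) (v ⟨2 * i + 1, by omega⟩) else 0) = 0 := by
    rw [← abs_eq_zero]
    refine le_antisymm ?_ (abs_nonneg _)
    by_contra hc
    push Not at hc
    have := mul_pos hpos hc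
    linarith
  apply h3
  rw [← h0]
  have e : ∑ v : Fin (2 * 2) → V, a v * ∏ i : Fin 2,
        (if cl (v ⟨2 * i, by omega⟩) = i ∧ cl (v ⟨2 * i + 1, by omega⟩) = i then
          Φ i (v ⟨2 * i, by omega⟩) (v ⟨2 * i + 1, by omega⟩) else 0) =
      ∑ x, ∑ y, ∑ s, ∑ t, a ![x, y, s, t] * ((if A x ∧ A y then φ x y else 0) *
        (if ¬ A s ∧ ¬ A t then ψ s t else 0)) := by
    rw [show (∑ v : Fin (2 * 2) → V, a v * ∏ i : Fin 2,
        (if cl (v ⟨2 * i, by omega⟩) = i ∧ cl (v ⟨2 * i + 1, by omega⟩) = i then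
          Φ i (v ⟨2 * i, by omega⟩) (v ⟨2 * i + 1, by omega⟩) else 0)) =
        ∑ v : Fin 4 → V, a v * ((if cl (v 0) = 0 ∧ cl (v 1) = 0 then φ (v 0) (v 1) else 0) *
          (if cl (v 2) = 1 ∧ cl (v 3) = 1 then ψ (v 2) (v 3) else 0)) from ?_, sum_four]
    · refine Finset.sum_congr rfl fun x _ => Finset.sum_congr rfl fun y _ =>
        Finset.sum_congr rfl fun s _ => Finset.sum_congr rfl fun t _ => ?_
      simp only [hcl0, hcl1]
      rfl
    · refine Finset.sum_congr rfl fun v _ => ?_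
      rw [Fin.prod_univ_two]
      rfl
  rw [e]
  have e2 : ∀ s t, dualC A φ a s t * ψ s t = ∑ x, ∑ y, a ![x, y, s, t] *
      ((if A x ∧ A y then φ x y else 0) * (if ¬ A s ∧ ¬ A t then ψ s t else 0)) := by
    intro s t
    unfold dualC
    by_cases h : ¬ A s ∧ ¬ A t
    · rw [if_pos h, Finset.sum_mul]
      refine Finset.sum_congr rfl fun x _ => ?_
      rw [Finset.sum_mul]
      refine Finset.sum_congr rfl fun y _ => ?_
      rw [if_pos h]
      ring
    · rw [if_neg h, zero_mul]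
      refine (Finset.sum_eq_zero fun x _ => Finset.sum_eq_zero fun y _ => ?_).symm
      rw [if_neg h]
      ring
  simp only [e2]
  rw [show (∑ s, ∑ t, ∑ x, ∑ y, a ![x, y, s, t] *
      ((if A x ∧ A y then φ x y else 0) * (if ¬ A s ∧ ¬ A t then ψ s t else 0))) =
      ∑ p : V × V, ∑ q : V × V, a ![q.1, q.2, p.1, p.2] *
      ((if A q.1 ∧ A q.2 then φ q.1 q.2 else 0) *
        (if ¬ A p.1 ∧ ¬ A p.2 then ψ p.1 p.2 else 0)) by
    simp only [Fintype.sum_prod_type], Finset.sum_comm]
  simp only [Fintype.sum_prod_type]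

theorem cast_ne {m n : ℕ} (hm : 5 ≤ m) (h0 : 0 < n) (h4 : n ≤ 4) : (n : ZMod m) ≠ 0 := by
  intro h
  have := Nat.le_of_dvd h0 ((ZMod.natCast_eq_zero_iff n m).1 h)
  omega

/-- the elementary cocycle of an edge of an induced cycle -/
theorem sqFree_cycle (G : SimpleGraph V) {m : ℕ} (hm : 5 ≤ m) (z : ZMod m → V)
    (hz : Function.Injective z) (hadj : ∀ i j, G.Adj (z i) (z j) ↔ j = i + 1 ∨ i = j + 1) :
    SqFree (GA G fun v => v ∈ Set.range z) fun a b => edg (z 0) (z 1) a.1 b.1 := by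
  have n1 : (1 : ZMod m) ≠ 0 := by exact_mod_cast cast_ne (n := 1) hm (by norm_num) (by norm_num)
  have n2 : (2 : ZMod m) ≠ 0 := by exact_mod_cast cast_ne (n := 2) hm (by norm_num) (by norm_num)
  have n3 : (3 : ZMod m) ≠ 0 := by exact_mod_cast cast_ne (n := 3) hm (by norm_num) (by norm_num)
  have n4 : (4 : ZMod m) ≠ 0 := by exact_mod_cast cast_ne (n := 4) hm (by norm_num) (by norm_num)
  have hanti : ∀ s t, edg (z 0) (z 1) s t = - edg (z 0) (z 1) t s := by
    intro s t
    simp only [edg]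
    by_cases h1 : s = z 0 ∧ t = z 1
    · by_cases h2 : s = z 1 ∧ t = z 0
      · rw [if_pos h1, if_pos h2, if_pos h2.symm, if_pos h1.symm]
        ring
      · rw [if_pos h1, if_neg h2, if_neg (fun h => h2 h.symm), if_pos h1.symm]
        ring
    · by_cases h2 : s = z 1 ∧ t = z 0
      · rw [if_neg h1, if_pos h2, if_pos h2.symm, if_neg (fun h => h1 h.symm)]
        ring
      · rw [if_neg h1, if_neg h2, if_neg (fun h => h2 h.symm), if_neg (fun h => h1 h.symm)]
        ring
  refine ⟨fun a b => hanti _ _, ?_, ?_⟩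
  · rintro ⟨_, i, rfl⟩ ⟨_, j, rfl⟩ ⟨_, k, rfl⟩ h1 h2 h3
    exfalso
    have e1 := (hadj i j).1 h1
    have e2 := (hadj j k).1 h2
    have e3 := (hadj i k).1 h3
    rcases e1 with rfl | rfl <;> rcases e2 with rfl | h2 <;> rcases e3 with h3 | h3
    · exact n1 (by linear_combination h3)
    · exact n3 (by linear_combination -h3)
    · exact n1 (by linear_combination -h3 - h2)
    · exact n1 (by linear_combination h2 - h3)
    · exact n1 (by linear_combination -h3)
    · exact n1 (by linear_combination -h3)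
    · exact n3 (by linear_combination -h3 - h2)
    · exact n1 (by linear_combination h3 - h2)
  · rintro ⟨_, i, rfl⟩ ⟨_, k, rfl⟩ ⟨_, j, rfl⟩ ⟨_, l, rfl⟩ h1 h2 h3 h4
    change edg (z 0) (z 1) (z i) (z j) + edg (z 0) (z 1) (z j) (z k) =
      edg (z 0) (z 1) (z i) (z l) + edg (z 0) (z 1) (z l) (z k)
    by_cases hik : i = k
    · subst hik
      rw [hanti (z j) (z i), hanti (z l) (z i)]
      ring
    · have hjl : j = l := by
        have e1 := (hadj i j).1 h1
        have e2 := (hadj j k).1 h2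
        have e3 := (hadj i l).1 h3
        have e4 := (hadj l k).1 h4
        by_contra hne
        rcases e1 with e1 | e1 <;> rcases e3 with e3 | e3
        · exact hne (e1.trans e3.symm)
        · rcases e2 with e2 | e2 <;> rcases e4 with e4 | e4
          · exact n2 (by linear_combination e4 - e3 - e2 - e1)
          · exact n4 (by linear_combination -e4 - e3 - e2 - e1)
          · exact hik (by linear_combination e2 - e1)
          · exact hik (by linear_combination e2 - e1)
        · rcases e2 with e2 | e2 <;> rcases e4 with e4 | e4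
          · exact hik (by linear_combination e1 - e2)
          · exact hik (by linear_combination e4 - e3)
          · exact n4 (by linear_combination -e4 - e3 - e2 - e1)
          · exact hik (by linear_combination e4 - e3)
        · exact hne (by linear_combination e3 - e1)
      rw [hjl]

/-- In dimension four: if the simplicial volume vanishes then the link of an edge of an induced cycle
of length at least five is homologous in the complement to a combination of 4-cycles. -/
theorem link_mem [Fintype V] (G : SimpleGraph V) (a : (Fin 4 → V) → ℝ) (ha : IsCyc 4 G a)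
    {m : ℕ} (hm : 5 ≤ m) (z : ZMod m → V) (hz : Function.Injective z)
    (hadj : ∀ i j, G.Adj (z i) (z j) ↔ j = i + 1 ∨ i = j + 1)
    (H : Subgroup (W G)) (hi : H.index ≠ 0) (hε : H ≤ (par G).ker) (hs : svol G 4 a H = 0) :
    (fun s t => a ![z 0, z 1, s, t]) ∈ SqSpan G fun v => v ∉ Set.range z := by
  have n1 : (1 : ZMod m) ≠ 0 := by exact_mod_cast cast_ne (n := 1) hm (by norm_num) (by norm_num)
  have n2 : (2 : ZMod m) ≠ 0 := by exact_mod_cast cast_ne (n := 2) hm (by norm_num) (by norm_num)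
  have n3 : (3 : ZMod m) ≠ 0 := by exact_mod_cast cast_ne (n := 3) hm (by norm_num) (by norm_num)
  have h := dim4 G (fun v => v ∈ Set.range z) (edg (z 0) (z 1)) (sqFree_cycle G hm z hz hadj) a ha
    H hi hε hs
  have hadj0 : ∀ v, v ∈ Set.range z → ¬ (G.Adj (z 0) v ∧ G.Adj (z 1) v) := by
    rintro _ ⟨i, rfl⟩ ⟨h1, h2⟩
    rcases (hadj 0 i).1 h1 with e1 | e1 <;> rcases (hadj 1 i).1 h2 with e2 | e2
    · exact n1 (by linear_combination e1 - e2)
    · exact n1 (by linear_combination -e1 - e2)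
    · exact n3 (by linear_combination -e1 - e2)
    · exact n1 (by linear_combination e2 - e1)
  have hvan : ∀ s t, (s ∈ Set.range z ∨ t ∈ Set.range z) → a ![z 0, z 1, s, t] = 0 := by
    intro s t hst
    by_contra hne
    have hs := ha.supp _ hne
    rcases hst with h | h
    · exact hadj0 s h ⟨hs 0 2 (by decide), hs 1 2 (by decide)⟩
    · exact hadj0 t h ⟨hs 0 3 (by decide), hs 1 3 (by decide)⟩
  have hne : z 0 ≠ z 1 := fun h => n1 (hz h).symm
  have e : (fun s t => a ![z 0, z 1, s, t]) =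
      (1 / 2 : ℝ) • dualC (fun v => v ∈ Set.range z) (edg (z 0) (z 1)) a := by
    funext s t
    simp only [Pi.smul_apply, smul_eq_mul]
    unfold dualC
    by_cases hst : s ∉ Set.range z ∧ t ∉ Set.range z
    · rw [if_pos hst]
      have h1 : ∀ x y, (if x ∈ Set.range z ∧ y ∈ Set.range z then edg (z 0) (z 1) x y else 0) =
          edg (z 0) (z 1) x y := by
        intro x y
        by_cases hxy : x ∈ Set.range z ∧ y ∈ Set.range z
        · rw [if_pos hxy]
        · rw [if_neg hxy]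
          simp only [edg]
          rw [if_neg, if_neg, sub_zero]
          · rintro ⟨rfl, rfl⟩
            exact hxy ⟨⟨1, rfl⟩, ⟨0, rfl⟩⟩
          · rintro ⟨rfl, rfl⟩
            exact hxy ⟨⟨0, rfl⟩, ⟨1, rfl⟩⟩
      simp only [h1]
      simp only [edg, sub_mul, Finset.sum_sub_distrib]
      have h2 : ∀ p q : V, ∑ x, ∑ y, (if x = p ∧ y = q then (1 : ℝ) else 0) * a ![x, y, s, t] =
          a ![p, q, s, t] := by
        intro p q
        rw [Finset.sum_eq_single p, Finset.sum_eq_single q]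
        · rw [if_pos ⟨rfl, rfl⟩, one_mul]
        · intro b _ hb
          rw [if_neg (fun h => hb h.2), zero_mul]
        · intro h; exact absurd (Finset.mem_univ _) h
        · intro b _ hb
          refine Finset.sum_eq_zero fun t _ => ?_
          rw [if_neg (fun h => hb h.1), zero_mul]
        · intro h; exact absurd (Finset.mem_univ _) h
      rw [h2, h2, alt_swap01 ha (z 0) (z 1) s t]
      ring
    · rw [if_neg hst, mul_zero]
      refine hvan s t ?_
      by_contra hc
      exact hst ⟨fun h => hc (Or.inl h), fun h => hc (Or.inr h)⟩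
  rw [e]
  exact Submodule.smul_mem _ _ h

end

end Pool.Agent.Helper41.SV
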