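import Pool.Agent.Helper41.SV.Key
import Pool.Agent.Q134.SV.Rac

/-!
The bounded cochain of degree two on a right-angled Coxeter group: the sum over all elements `v` of
the local terms, which depend only on the first letters of `v⁻¹ g₀`, `v⁻¹ g₁`, `v⁻¹ g₂`.
-/

set_option autoImplicit false

open scoped Classical

namespace Pool.Agent.Helper41.SV

open Pool.Agent.Helper376.LC
open Pool.Agent.W907.SG (W cox)
open Pool.Agent.Q134.SV

variable {V : Type} [Fintype V] (G : SimpleGraph V)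

/-- the Coxeter system of `W G` -/
noncomputable abbrev csG : CoxeterSystem (cox G) (W G) := (cox G).toCoxeterSystem

omit [Fintype V] in
theorem cox_apply (i j : V) : (cox G) i j = if i = j then 1 else if G.Adj i j then 2 else 0 := rfl

omit [Fintype V] in
theorem hMG : RightAngled (cox G) := by
  intro i j hij
  rw [cox_apply, if_neg hij]
  split_ifs
  · exact Or.inl rfl
  · exact Or.inr rfl

omit [Fintype V] in
theorem hGG : ∀ i j, i ≠ j → ((cox G) i j = 2 ↔ G.Adj i j) := by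
  intro i j hij
  rw [cox_apply, if_neg hij]
  split_ifs with h
  · exact ⟨fun _ => h, fun _ => rfl⟩
  · exact ⟨fun h' => absurd h' (by decide), fun h' => absurd h' h⟩

/-- an enumeration of the vertices -/
noncomputable def nu (v : V) : ℕ := (Fintype.equivFin V v : ℕ)

theorem nu_inj {u v : V} (h : nu u = nu v) : u = v :=
  (Fintype.equivFin V).injective (Fin.ext h)

omit [Fintype V] in
theorem labE (w : W G) [Fintype V] (h : ∃ i, (csG G).IsLeftDescent w i) :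
    ∃ i, (csG G).IsLeftDescent w i ∧ ∀ j, (csG G).IsLeftDescent w j → nu i ≤ nu j := by
  obtain ⟨i, hi⟩ := h
  obtain ⟨m, hm, hm'⟩ := (measure (nu : V → ℕ)).wf.has_min {i | (csG G).IsLeftDescent w i} ⟨i, hi⟩
  exact ⟨m, hm, fun j hj => not_lt.1 (hm' j hj)⟩

/-- the first letter of `w` (the least one) -/
noncomputable def lab (w : W G) : Option V :=
  if h : ∃ i, (csG G).IsLeftDescent w i then some (Classical.choose (labE G w h)) else none

theorem lab_some {w : W G} {i : V} (h : lab G w = some i) :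
    (csG G).IsLeftDescent w i ∧ ∀ j, (csG G).IsLeftDescent w j → nu i ≤ nu j := by
  unfold lab at h
  split_ifs at h with h1
  · rw [← Option.some.inj h]
    exact Classical.choose_spec (labE G w h1)

theorem lab_none {w : W G} (h : lab G w = none) : w = 1 := by
  unfold lab at h
  split_ifs at h with h1
  by_contra hne
  exact h1 ((csG G).exists_leftDescent_of_ne_one hne)

theorem lab_one : lab G 1 = none := by
  unfold lab
  rw [dif_neg]
  rintro ⟨i, hi⟩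
  have := (csG G).isLeftDescent_iff.1 hi
  simp at this

/-- the parity -/
noncomputable def ep (v : W G) : ℝ := ((par G v : ℤ) : ℝ)

omit [Fintype V] in
theorem ep_gen (s : V) (v : W G) : ep G (gen G s * v) = - ep G v := by
  unfold ep
  rw [map_mul, par_gen]
  simp

omit [Fintype V] in
theorem ep_abs (v : W G) : |ep G v| = 1 := by
  unfold ep
  rcases Int.units_eq_one_or (par G v) with h | h <;> rw [h] <;> simp

variable {G} {P : Option V → Option V → ℝ} (hP : Pot G P)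

/-- the local term at `v` -/
noncomputable def lt (P : Option V → Option V → ℝ) (g₀ g₁ g₂ v : W G) : ℝ :=
  FF P (lab G (v⁻¹ * g₀)) (lab G (v⁻¹ * g₁)) (lab G (v⁻¹ * g₂))

/-- the key of `v` -/
noncomputable def key (g₀ g₁ g₂ v : W G) : (Option V × Option V × Option V) × (Prop × Prop × Prop) :=
  ((lab G (v⁻¹ * g₀), lab G (v⁻¹ * g₁), lab G (v⁻¹ * g₂)),
    (Pr (csG G) v g₀ g₁, Pr (csG G) v g₁ g₂, Pr (csG G) v g₂ g₀))

theorem lb_of {g₀ g₁ g₂ v : W G} {s₀ s₁ s₂ : V} (h₀ : lab G (v⁻¹ * g₀) = some s₀)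
    (h₁ : lab G (v⁻¹ * g₁) = some s₁) (h₂ : lab G (v⁻¹ * g₂) = some s₂)
    (hne : lt P g₀ g₁ g₂ v ≠ 0) : Lb (csG G) P v g₀ g₁ g₂ s₀ s₁ s₂ := by
  have k0 := lab_some G h₀
  have k1 := lab_some G h₁
  have k2 := lab_some G h₂
  have hc : ∀ {a b : W G} {s t : V}, lab G (v⁻¹ * a) = some s → lab G (v⁻¹ * b) = some t →
      Sp (csG G) v b s → Sp (csG G) v a t → s = t := by
    intro a b s t hs ht h1 h2
    rw [Sp_iff] at h1 h2
    exact nu_inj (le_antisymm ((lab_some G hs).2 t h2) ((lab_some G ht).2 s h1))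
  refine ⟨(Sp_iff _ _ _ _).2 k0.1, (Sp_iff _ _ _ _).2 k1.1, (Sp_iff _ _ _ _).2 k2.1, hc h₀ h₁,
    hc h₁ h₂, hc h₂ h₀, ?_⟩
  unfold lt at hne
  rwa [h₀, h₁, h₂] at hne

include hP

theorem key_inj (g₀ g₁ g₂ : W G) :
    Set.InjOn (key g₀ g₁ g₂) {v : W G | lt P g₀ g₁ g₂ v ≠ 0} := by
  intro v hv v' hv' hk
  unfold key at hk
  rw [Prod.mk.injEq, Prod.mk.injEq, Prod.mk.injEq, Prod.mk.injEq, Prod.mk.injEq] at hk
  obtain ⟨⟨h0, h1, h2⟩, ⟨p01, p12, p20⟩⟩ := hk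
  have hn : ∀ g : W G, lab G (v⁻¹ * g) = none → lab G (v'⁻¹ * g) = none → v = v' := by
    intro g a b
    have a' := inv_mul_eq_one.1 (lab_none G a)
    have b' := inv_mul_eq_one.1 (lab_none G b)
    rw [a', b']
  rcases e0 : lab G (v⁻¹ * g₀) with _ | s₀
  · exact hn g₀ e0 (h0 ▸ e0)
  rcases e1 : lab G (v⁻¹ * g₁) with _ | s₁
  · exact hn g₁ e1 (h1 ▸ e1)
  rcases e2 : lab G (v⁻¹ * g₂) with _ | s₂
  · exact hn g₂ e2 (h2 ▸ e2)
  exact inj_all (csG G) (hMG G) (hGG G) hP (lb_of e0 e1 e2 hv)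
    (lb_of (h0 ▸ e0) (h1 ▸ e1) (h2 ▸ e2) hv') (iff_of_eq p01) (iff_of_eq p12) (iff_of_eq p20)

theorem supp_fin (g₀ g₁ g₂ : W G) : {v : W G | lt P g₀ g₁ g₂ v ≠ 0}.Finite :=
  Set.Finite.of_finite_image (Set.toFinite _) (key_inj hP g₀ g₁ g₂)

theorem supp_card (g₀ g₁ g₂ : W G) :
    (supp_fin hP g₀ g₁ g₂).toFinset.card ≤ 8 * (Fintype.card V + 1) ^ 3 := by
  have h1 : (supp_fin hP g₀ g₁ g₂).toFinset.card ≤
      (Finset.univ : Finset ((Option V × Option V × Option V) × (Prop × Prop × Prop))).card :=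
    Finset.card_le_card_of_injOn (key g₀ g₁ g₂) (fun _ _ => Finset.mem_univ _) (by
      rw [Set.Finite.coe_toFinset]
      exact key_inj hP g₀ g₁ g₂)
  refine h1.trans (le_of_eq ?_)
  rw [Finset.card_univ, Fintype.card_prod, Fintype.card_prod, Fintype.card_prod,
    Fintype.card_prod, Fintype.card_prod, Fintype.card_option, Fintype.card_prop]
  ring

omit hP

/-- the cochain -/
noncomputable def cc (P : Option V → Option V → ℝ) (g₀ g₁ g₂ : W G) : ℝ :=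
  ∑ᶠ v : W G, ep G v * lt P g₀ g₁ g₂ v

theorem supp_sub (g₀ g₁ g₂ : W G) : (Function.support fun v : W G => ep G v * lt P g₀ g₁ g₂ v) ⊆
    {v : W G | lt P g₀ g₁ g₂ v ≠ 0} := by
  intro v hv
  exact right_ne_zero_of_mul hv

include hP

theorem supp_fin' (g₀ g₁ g₂ : W G) :
    (Function.support fun v : W G => ep G v * lt P g₀ g₁ g₂ v).Finite :=
  (supp_fin hP g₀ g₁ g₂).subset (supp_sub g₀ g₁ g₂)

theorem cc_sum (g₀ g₁ g₂ : W G) : cc P g₀ g₁ g₂ =
    ∑ v ∈ (supp_fin hP g₀ g₁ g₂).toFinset, ep G v * lt P g₀ g₁ g₂ v := by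
  unfold cc
  refine finsum_eq_sum_of_support_subset _ ?_
  rw [Set.Finite.coe_toFinset]
  exact supp_sub g₀ g₁ g₂

theorem cc_bound {B : ℝ} (hB : ∀ a b, |P a b| ≤ B) (g₀ g₁ g₂ : W G) :
    |cc P g₀ g₁ g₂| ≤ 24 * (Fintype.card V + 1) ^ 3 * B := by
  have hB0 : 0 ≤ B := (abs_nonneg _).trans (hB none none)
  rw [cc_sum hP]
  have h1 : ∀ v ∈ (supp_fin hP g₀ g₁ g₂).toFinset, |ep G v * lt P g₀ g₁ g₂ v| ≤ 3 * B := by
    intro v _
    rw [abs_mul, ep_abs, one_mul]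
    unfold lt FF
    have a := hB (lab G (v⁻¹ * g₀)) (lab G (v⁻¹ * g₁))
    have b := hB (lab G (v⁻¹ * g₁)) (lab G (v⁻¹ * g₂))
    have c := hB (lab G (v⁻¹ * g₂)) (lab G (v⁻¹ * g₀))
    have t1 := abs_add_le (P (lab G (v⁻¹ * g₀)) (lab G (v⁻¹ * g₁)) +
      P (lab G (v⁻¹ * g₁)) (lab G (v⁻¹ * g₂))) (P (lab G (v⁻¹ * g₂)) (lab G (v⁻¹ * g₀)))
    have t2 := abs_add_le (P (lab G (v⁻¹ * g₀)) (lab G (v⁻¹ * g₁)))
      (P (lab G (v⁻¹ * g₁)) (lab G (v⁻¹ * g₂)))
    linarith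
  calc |∑ v ∈ (supp_fin hP g₀ g₁ g₂).toFinset, ep G v * lt P g₀ g₁ g₂ v| ≤
      ∑ v ∈ (supp_fin hP g₀ g₁ g₂).toFinset, |ep G v * lt P g₀ g₁ g₂ v| :=
        Finset.abs_sum_le_sum_abs _ _
    _ ≤ ∑ _v ∈ (supp_fin hP g₀ g₁ g₂).toFinset, 3 * B := Finset.sum_le_sum h1
    _ = ((supp_fin hP g₀ g₁ g₂).toFinset.card : ℝ) * (3 * B) := by
        rw [Finset.sum_const, nsmul_eq_mul]
    _ ≤ ((8 * (Fintype.card V + 1) ^ 3 : ℕ) : ℝ) * (3 * B) :=
        mul_le_mul_of_nonneg_right (Nat.cast_le.2 (supp_card hP g₀ g₁ g₂)) (by positivity)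
    _ = 24 * (Fintype.card V + 1) ^ 3 * B := by
        push_cast
        ring

theorem cc_coc (g₀ g₁ g₂ g₃ : W G) :
    cc P g₁ g₂ g₃ - cc P g₀ g₂ g₃ + cc P g₀ g₁ g₃ - cc P g₀ g₁ g₂ = 0 := by
  unfold cc
  rw [← finsum_sub_distrib (supp_fin' hP _ _ _) (supp_fin' hP _ _ _)]
  have f1 : (Function.support fun v : W G => ep G v * lt P g₁ g₂ g₃ v -
      ep G v * lt P g₀ g₂ g₃ v).Finite :=
    ((supp_fin' hP g₁ g₂ g₃).union (supp_fin' hP g₀ g₂ g₃)).subset (Function.support_sub _ _)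
  rw [← finsum_add_distrib f1 (supp_fin' hP _ _ _)]
  have f2 : (Function.support fun v : W G => ep G v * lt P g₁ g₂ g₃ v -
      ep G v * lt P g₀ g₂ g₃ v + ep G v * lt P g₀ g₁ g₃ v).Finite :=
    (f1.union (supp_fin' hP g₀ g₁ g₃)).subset (Function.support_add _ _)
  rw [← finsum_sub_distrib f2 (supp_fin' hP _ _ _)]
  have h0 : (fun v : W G => ep G v * lt P g₁ g₂ g₃ v - ep G v * lt P g₀ g₂ g₃ v +
      ep G v * lt P g₀ g₁ g₃ v - ep G v * lt P g₀ g₁ g₂ v) = fun _ => 0 := by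
    funext v
    unfold lt FF
    rw [hP.anti (lab G (v⁻¹ * g₃)) (lab G (v⁻¹ * g₁)), hP.anti (lab G (v⁻¹ * g₃)) (lab G (v⁻¹ * g₀)),
      hP.anti (lab G (v⁻¹ * g₂)) (lab G (v⁻¹ * g₀))]
    ring
  rw [h0, finsum_zero]

theorem cc_deg (g h : W G) : cc P g g h = 0 ∧ cc P g h h = 0 := by
  unfold cc lt
  constructor
  · have : (fun v : W G => ep G v * FF P (lab G (v⁻¹ * g)) (lab G (v⁻¹ * g)) (lab G (v⁻¹ * h))) =
        fun _ => 0 := by
      funext v
      rw [FF_aab hP, mul_zero]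
    rw [this, finsum_zero]
  · have : (fun v : W G => ep G v * FF P (lab G (v⁻¹ * g)) (lab G (v⁻¹ * h)) (lab G (v⁻¹ * h))) =
        fun _ => 0 := by
      funext v
      rw [FF_abb hP, mul_zero]
    rw [this, finsum_zero]

omit hP

theorem cc_gen (s : V) (g₀ g₁ g₂ : W G) :
    cc P (gen G s * g₀) (gen G s * g₁) (gen G s * g₂) = - cc P g₀ g₁ g₂ := by
  unfold cc
  rw [← finsum_neg_distrib, ← finsum_comp_equiv (Equiv.mulLeft (gen G s))]
  refine finsum_congr fun v => ?_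
  have e : ∀ g : W G, (gen G s * v)⁻¹ * (gen G s * g) = v⁻¹ * g := by
    intro g
    group
  rw [Equiv.coe_mulLeft, ep_gen]
  unfold lt
  rw [e, e, e]
  ring

end Pool.Agent.Helper41.SV
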