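import Pool.Agent.Helper41.SV.Walls

/-!
Local terms of the cochain and the counting lemma: an element with a nonzero local term is
determined by three labels and three truth values.
-/

set_option autoImplicit false

namespace Pool.Agent.Helper41.SV

open Pool.Agent.Helper376.LC

section Local

variable {V : Type*} (G : SimpleGraph V)

/-- equal or adjacent -/
def Cl (x z : V) : Prop := x = z ∨ G.Adj x z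

variable {G}

theorem Cl.symm {x z : V} (h : Cl G x z) : Cl G z x := by
  rcases h with h | h
  · exact Or.inl h.symm
  · exact Or.inr h.symm

theorem Cl.refl (x : V) : Cl G x x := Or.inl rfl

variable (G)

/-- a potential: antisymmetric, zero at `none`, and additive on closed neighbourhoods -/
structure Pot (P : Option V → Option V → ℝ) : Prop where
  anti : ∀ a b, P a b = - P b a
  none : ∀ b, P none b = 0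
  star : ∀ z a b, Cl G a z → Cl G b z → P (some a) (some b) = P (some a) (some z) + P (some z) (some b)

variable {G}

/-- the local term -/
def FF (P : Option V → Option V → ℝ) (a b c : Option V) : ℝ := P a b + P b c + P c a

variable {P : Option V → Option V → ℝ} (hP : Pot G P)

include hP

theorem Pot.self (a : Option V) : P a a = 0 := by
  have := hP.anti a a
  linarith

theorem FF_rot (a b c : Option V) : FF P b c a = FF P a b c := by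
  unfold FF
  ring

theorem FF_aab (a b : Option V) : FF P a a b = 0 := by
  unfold FF
  rw [hP.self, hP.anti b a]
  ring

theorem FF_abb (a b : Option V) : FF P a b b = 0 := by
  unfold FF
  rw [hP.self, hP.anti b a]
  ring

theorem FF_star {a b c z : V} (ha : Cl G a z) (hb : Cl G b z) (hc : Cl G c z) :
    FF P (some a) (some b) (some c) = 0 := by
  unfold FF
  rw [hP.star z a b ha hb, hP.star z b c hb hc, hP.star z c a hc ha, hP.anti (some b) (some z),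
    hP.anti (some c) (some z), hP.anti (some a) (some z)]
  ring

/-- cliques -/
def Clq (G : SimpleGraph V) (S : V → Prop) : Prop := ∀ x y, S x → S y → Cl G x y

variable {S₀ S₁ S₂ : V → Prop} (h₀ : Clq G S₀) (h₁ : Clq G S₁) (h₂ : Clq G S₂) {s₀ s₁ s₂ : V}
  (e₀ : S₀ s₀) (e₁ : S₁ s₁) (e₂ : S₂ s₂)

include h₀ h₁ h₂ e₀ e₁ e₂

theorem loc_triple {z : V} (z₀ : S₀ z) (z₁ : S₁ z) (z₂ : S₂ z) :
    FF P (some s₀) (some s₁) (some s₂) = 0 :=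
  FF_star hP (h₀ _ _ e₀ z₀) (h₁ _ _ e₁ z₁) (h₂ _ _ e₂ z₂)

theorem loc_three {s s' s'' : V} (a₀ : S₀ s) (a₁ : S₁ s) (b₁ : S₁ s') (b₂ : S₂ s') (c₀ : S₀ s'')
    (c₂ : S₂ s'') : FF P (some s₀) (some s₁) (some s₂) = 0 := by
  have k1 := hP.star s s₀ s₁ (h₀ _ _ e₀ a₀) (h₁ _ _ e₁ a₁)
  have k2 := hP.star s' s₁ s₂ (h₁ _ _ e₁ b₁) (h₂ _ _ e₂ b₂)
  have k3 := hP.star s'' s₂ s₀ (h₂ _ _ e₂ c₂) (h₀ _ _ e₀ c₀)
  have k4 := hP.star s₁ s s' (h₁ _ _ a₁ e₁) (h₁ _ _ b₁ e₁)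
  have k5 := hP.star s₂ s' s'' (h₂ _ _ b₂ e₂) (h₂ _ _ c₂ e₂)
  have k6 := hP.star s₀ s'' s (h₀ _ _ c₀ e₀) (h₀ _ _ a₀ e₀)
  have k7 := FF_star hP (z := s) (Cl.refl s) (h₁ _ _ b₁ a₁) (h₀ _ _ c₀ a₀)
  unfold FF at k7 ⊢
  linarith

theorem loc_two {s' s'' : V} (b₁ : S₁ s') (b₂ : S₂ s') (c₀ : S₀ s'') (c₂ : S₂ s'')
    (hne : FF P (some s₀) (some s₁) (some s₂) ≠ 0) :
    ¬ S₂ s₀ ∧ ¬ S₂ s₁ ∧ ¬ Cl G s₀ s₁ ∧ (∀ z, S₁ z → S₂ z → ¬ Cl G s₀ z) ∧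
      (∀ z, S₀ z → S₂ z → ¬ Cl G s₁ z) := by
  have hk4 : ∀ z, S₁ z → S₂ z → ¬ Cl G s₀ z := fun z z₁ z₂ hz =>
    hne (FF_star hP hz (h₁ _ _ e₁ z₁) (h₂ _ _ e₂ z₂))
  have hk5 : ∀ z, S₀ z → S₂ z → ¬ Cl G s₁ z := fun z z₀ z₂ hz =>
    hne (FF_star hP (h₀ _ _ e₀ z₀) hz (h₂ _ _ e₂ z₂))
  refine ⟨fun h => hk4 s' b₁ b₂ (h₂ _ _ h b₂), fun h => hk5 s'' c₀ c₂ (h₂ _ _ h c₂), ?_, hk4, hk5⟩
  intro h01
  apply hne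
  -- the cycle `s₀ s₁ s' s''`
  have k2 := hP.star s' s₁ s₂ (h₁ _ _ e₁ b₁) (h₂ _ _ e₂ b₂)
  have k3 := hP.star s'' s₂ s₀ (h₂ _ _ e₂ c₂) (h₀ _ _ e₀ c₀)
  have k5 := hP.star s₂ s' s'' (h₂ _ _ b₂ e₂) (h₂ _ _ c₂ e₂)
  have k6 := hP.star s₁ s₀ s' h01 (h₁ _ _ b₁ e₁)
  have k7 := hP.star s'' s₀ s' (h₀ _ _ e₀ c₀) (h₂ _ _ b₂ c₂)
  have k8 := hP.anti (some s'') (some s')
  have k9 := hP.anti (some s₀) (some s'')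
  unfold FF
  linarith

theorem loc_one {s : V} (a₀ : S₀ s) (a₁ : S₁ s) (hc : S₁ s₀ → S₀ s₁ → s₀ = s₁)
    (hne : FF P (some s₀) (some s₁) (some s₂) ≠ 0) :
    (∀ z, S₀ z → S₁ z → ¬ Cl G s₂ z) ∧
      ((¬ S₁ s₀ ∧ ¬ Cl G s₂ s₀) ∨ (¬ S₀ s₁ ∧ ¬ Cl G s₂ s₁)) := by
  have hk : ∀ z, S₀ z → S₁ z → ¬ Cl G s₂ z := fun z z₀ z₁ hz =>
    hne (FF_star hP (h₀ _ _ e₀ z₀) (h₁ _ _ e₁ z₁) hz)
  refine ⟨hk, ?_⟩
  by_cases i₀ : S₁ s₀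
  · by_cases i₁ : S₀ s₁
    · exfalso
      apply hne
      rw [hc i₀ i₁]
      exact FF_aab hP _ _
    · right
      refine ⟨i₁, fun h => hne ?_⟩
      exact FF_star hP (h₁ _ _ i₀ e₁) (Cl.refl s₁) h
  · by_cases i₁ : S₀ s₁
    · left
      refine ⟨i₀, fun h => hne ?_⟩
      exact FF_star hP (Cl.refl s₀) (h₀ _ _ i₁ e₀) h
    · by_cases j₀ : Cl G s₂ s₀
      · right
        refine ⟨i₁, fun j₁ => hne ?_⟩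
        exact FF_star hP j₀.symm j₁.symm (Cl.refl s₂)
      · exact Or.inl ⟨i₀, j₀⟩

end Local

section Global

variable {V : Type*} {M : CoxeterMatrix V} {W : Type*} [Group W] (cs : CoxeterSystem M W)
  (hM : RightAngled M) {G : SimpleGraph V} (hG : ∀ i j, i ≠ j → (M i j = 2 ↔ G.Adj i j))

/-- no wall adjacent to `v` separates `v` from `v'` and from two of the points -/
def Q (v v' g₀ g₁ g₂ : W) : Prop := ∀ r, Sp cs v v' r →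
  ¬ (Sp cs v g₀ r ∧ Sp cs v g₁ r) ∧ ¬ (Sp cs v g₁ r ∧ Sp cs v g₂ r) ∧
    ¬ (Sp cs v g₀ r ∧ Sp cs v g₂ r)

/-- a pair is not separated -/
def Em (v g g' : W) : Prop := ∀ i, ¬ (Sp cs v g i ∧ Sp cs v g' i)

include hM

omit hM in
theorem fin3 {x₀ x₁ x₂ y₀ y₁ y₂ : Prop} (k1 : ¬ (x₀ ∧ x₁)) (k2 : ¬ (x₁ ∧ x₂)) (k3 : ¬ (x₀ ∧ x₂))
    (n1 : ¬ (y₀ ∧ y₁)) (n2 : ¬ (y₁ ∧ y₂)) (n3 : ¬ (y₀ ∧ y₂)) (z₀ : ¬ x₀ → y₀) (z₁ : ¬ x₁ → y₁)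
    (z₂ : ¬ x₂ → y₂) : False := by
  by_cases h0 : x₀ <;> by_cases h1 : x₁ <;> by_cases h2 : x₂ <;> simp_all

theorem eq_of_Q {v v' g₀ g₁ g₂ : W} (h : Q cs v v' g₀ g₁ g₂) (h' : Q cs v' v g₀ g₁ g₂) :
    v = v' := by
  by_contra hne
  obtain ⟨r, hr⟩ := Sp_ex cs (Ne.symm hne)
  obtain ⟨k1, k2, k3⟩ := h' r hr
  unfold Sp at hr k1 k2 k3
  have ht : v' * cs.simple r * v'⁻¹ ∈ Wl cs v v' := (Wl_symm cs).1 hr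
  have y : ∀ g, v' * cs.simple r * v'⁻¹ ∉ Wl cs v' g → v' * cs.simple r * v'⁻¹ ∈ Wl cs v g := by
    intro g hg
    rw [Wl_tri cs (y := v')]
    exact fun h => hg (h.1 ht)
  have n1 : ¬ (v' * cs.simple r * v'⁻¹ ∈ Wl cs v g₀ ∧ v' * cs.simple r * v'⁻¹ ∈ Wl cs v g₁) := by
    rintro ⟨a, b⟩
    obtain ⟨i, i1, i2, i3⟩ := ex3 cs hM ht a b
    exact (h i i1).1 ⟨i2, i3⟩
  have n2 : ¬ (v' * cs.simple r * v'⁻¹ ∈ Wl cs v g₁ ∧ v' * cs.simple r * v'⁻¹ ∈ Wl cs v g₂) := by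
    rintro ⟨a, b⟩
    obtain ⟨i, i1, i2, i3⟩ := ex3 cs hM ht a b
    exact (h i i1).2.1 ⟨i2, i3⟩
  have n3 : ¬ (v' * cs.simple r * v'⁻¹ ∈ Wl cs v g₀ ∧ v' * cs.simple r * v'⁻¹ ∈ Wl cs v g₂) := by
    rintro ⟨a, b⟩
    obtain ⟨i, i1, i2, i3⟩ := ex3 cs hM ht a b
    exact (h i i1).2.2 ⟨i2, i3⟩
  exact fin3 k1 k2 k3 n1 n2 n3 (y g₀) (y g₁) (y g₂)

omit hM in
theorem Q_none {v v' g₀ g₁ g₂ : W} (h : Em cs v g₀ g₁) (h' : Em cs v g₁ g₂)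
    (h'' : Em cs v g₀ g₂) : Q cs v v' g₀ g₁ g₂ := fun r _ => ⟨h r, h' r, h'' r⟩

include hG

theorem nc_of {i j : V} (h : ¬ Cl G i j) : M i j ≠ 2 ∧ i ≠ j := by
  have hne : i ≠ j := fun e => h (Or.inl e)
  exact ⟨fun h2 => h (Or.inr ((hG i j hne).1 h2)), hne⟩

theorem Q_one {v v' g₀ g₁ g₂ : W} {s₀ s₁ s₂ : V} (e₀ : Sp cs v g₀ s₀) (e₁ : Sp cs v g₁ s₁)
    (e₂' : Sp cs v' g₂ s₂) (h' : Em cs v g₁ g₂) (h'' : Em cs v g₀ g₂)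
    (k' : Em cs v' g₁ g₂) (k'' : Em cs v' g₀ g₂)
    (hl : ∀ z, Sp cs v g₀ z → Sp cs v g₁ z → ¬ Cl G s₂ z)
    (hl' : (¬ Sp cs v g₁ s₀ ∧ ¬ Cl G s₂ s₀) ∨ (¬ Sp cs v g₀ s₁ ∧ ¬ Cl G s₂ s₁)) :
    Q cs v v' g₀ g₁ g₂ := by
  intro r hr
  refine ⟨?_, h' r, h'' r⟩
  rintro ⟨r0, r1⟩
  have n2r := nc_of hM hG (hl r r0 r1)
  have hT0 : ¬ Sp cs v' g₀ s₂ := fun h => k'' s₂ ⟨h, e₂'⟩
  have hT1 : ¬ Sp cs v' g₁ s₂ := fun h => k' s₂ ⟨h, e₂'⟩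
  have hRp : ¬ Sp cs v g₂ r := fun h => h' r ⟨r1, h⟩
  rcases hl' with ⟨m1, m2⟩ | ⟨m1, m2⟩
  · have n2a := nc_of hM hG m2
    exact no_wall cs hM n2r.1 n2r.2 n2a.1 n2a.2 hr hRp e₂' e₀ hT0 m1 hT1
  · have n2a := nc_of hM hG m2
    exact no_wall cs hM n2r.1 n2r.2 n2a.1 n2a.2 hr hRp e₂' e₁ hT1 m1 hT0

theorem Q_two {v v' g₀ g₁ g₂ : W} {s₀ s₁ : V} (e₀ : Sp cs v g₀ s₀) (e₁ : Sp cs v g₁ s₁)
    (e₀' : Sp cs v' g₀ s₀) (e₁' : Sp cs v' g₁ s₁) (h : Em cs v g₀ g₁) (h' : Em cs v' g₀ g₁)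
    (a₀ : ¬ Sp cs v g₂ s₀) (a₁ : ¬ Sp cs v g₂ s₁) (b₀ : ¬ Sp cs v' g₂ s₀)
    (b₁ : ¬ Sp cs v' g₂ s₁) (h01 : ¬ Cl G s₀ s₁)
    (hl : ∀ z, Sp cs v g₁ z → Sp cs v g₂ z → ¬ Cl G s₀ z)
    (hl' : ∀ z, Sp cs v g₀ z → Sp cs v g₂ z → ¬ Cl G s₁ z) :
    Q cs v v' g₀ g₁ g₂ := by
  intro r hr
  refine ⟨h r, ?_, ?_⟩
  · rintro ⟨r1, r2⟩
    have n0r := nc_of hM hG (hl r r1 r2)
    have n01 := nc_of hM hG h01
    exact no_wall cs hM n0r.1 n0r.2 n01.1 n01.2 hr (fun x => h r ⟨x, r1⟩) e₀' e₁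
      (fun x => h' s₀ ⟨e₀', x⟩) a₁ b₀
  · rintro ⟨r0, r2⟩
    have n1r := nc_of hM hG (hl' r r0 r2)
    have n10 := nc_of hM hG (fun x => h01 (Cl.symm x))
    exact no_wall cs hM n1r.1 n1r.2 n10.1 n10.2 hr (fun x => h r ⟨r0, x⟩) e₁' e₀
      (fun x => h' s₁ ⟨x, e₁'⟩) a₀ b₁

end Global

end Pool.Agent.Helper41.SV
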