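import Pool.Agent.Helper41.SV.Inj

/-!
The counting lemma: an element `v` with a nonzero local term is determined by its three labels and
by the pairs of the three points which are separated from `v` by a common wall.
-/

set_option autoImplicit false

namespace Pool.Agent.Helper41.SV

open Pool.Agent.Helper376.LC

variable {V : Type*} {M : CoxeterMatrix V} {W : Type*} [Group W] (cs : CoxeterSystem M W)
  (hM : RightAngled M) {G : SimpleGraph V} (hG : ∀ i j, i ≠ j → (M i j = 2 ↔ G.Adj i j))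
  {P : Option V → Option V → ℝ} (hP : Pot G P)

/-- the labels at `v`, if the local term is not zero -/
structure Lb (P : Option V → Option V → ℝ) (v g₀ g₁ g₂ : W) (s₀ s₁ s₂ : V) : Prop where
  e₀ : Sp cs v g₀ s₀
  e₁ : Sp cs v g₁ s₁
  e₂ : Sp cs v g₂ s₂
  c₀₁ : Sp cs v g₁ s₀ → Sp cs v g₀ s₁ → s₀ = s₁
  c₁₂ : Sp cs v g₂ s₁ → Sp cs v g₁ s₂ → s₁ = s₂
  c₂₀ : Sp cs v g₀ s₂ → Sp cs v g₂ s₀ → s₂ = s₀
  ne : FF P (some s₀) (some s₁) (some s₂) ≠ 0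

/-- a wall adjacent to `v` separates `v` from both points -/
def Pr (v g g' : W) : Prop := ∃ i, Sp cs v g i ∧ Sp cs v g' i

theorem Pr_symm {v g g' : W} : Pr cs v g g' ↔ Pr cs v g' g := by
  unfold Pr
  simp only [and_comm]

theorem em_of {v g g' : W} (h : ¬ Pr cs v g g') : Em cs v g g' := fun i hi => h ⟨i, hi⟩

variable {v v' g₀ g₁ g₂ : W} {s₀ s₁ s₂ : V}

theorem Lb.rot (h : Lb cs P v g₀ g₁ g₂ s₀ s₁ s₂) : Lb cs P v g₁ g₂ g₀ s₁ s₂ s₀ :=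
  ⟨h.e₁, h.e₂, h.e₀, h.c₁₂, h.c₂₀, h.c₀₁, by
    have := h.ne
    unfold FF at this ⊢
    intro h0
    apply this
    linarith⟩

include hM hG

theorem clq (g : W) : Clq G (Sp cs v g) := by
  intro x y hx hy
  by_cases h : x = y
  · exact Or.inl h
  · exact Or.inr ((hG x y h).1 (Sp_comm cs hM h hx hy))

include hP

theorem inj_three (h : Lb cs P v g₀ g₁ g₂ s₀ s₁ s₂) :
    ¬ (Pr cs v g₀ g₁ ∧ Pr cs v g₁ g₂ ∧ Pr cs v g₂ g₀) := by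
  rintro ⟨⟨a, a0, a1⟩, ⟨b, b1, b2⟩, ⟨c, c2, c0⟩⟩
  exact h.ne (loc_three hP (clq cs hM hG g₀) (clq cs hM hG g₁) (clq cs hM hG g₂) h.e₀ h.e₁ h.e₂
    a0 a1 b1 b2 c0 c2)

theorem inj_none (h01 : ¬ Pr cs v g₀ g₁) (h12 : ¬ Pr cs v g₁ g₂) (h20 : ¬ Pr cs v g₂ g₀)
    (h01' : ¬ Pr cs v' g₀ g₁) (h12' : ¬ Pr cs v' g₁ g₂) (h20' : ¬ Pr cs v' g₂ g₀) : v = v' := by
  rw [Pr_symm cs (g := g₂)] at h20 h20'
  exact eq_of_Q cs hM (Q_none cs (em_of cs h01) (em_of cs h12) (em_of cs h20))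
    (Q_none cs (em_of cs h01') (em_of cs h12') (em_of cs h20'))

theorem inj_one (h : Lb cs P v g₀ g₁ g₂ s₀ s₁ s₂) (h' : Lb cs P v' g₀ g₁ g₂ s₀ s₁ s₂)
    (h01 : Pr cs v g₀ g₁) (h12 : ¬ Pr cs v g₁ g₂) (h20 : ¬ Pr cs v g₂ g₀)
    (h01' : Pr cs v' g₀ g₁) (h12' : ¬ Pr cs v' g₁ g₂) (h20' : ¬ Pr cs v' g₂ g₀) : v = v' := by
  rw [Pr_symm cs (g := g₂)] at h20 h20'
  obtain ⟨a, a0, a1⟩ := h01
  obtain ⟨b, b0, b1⟩ := h01'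
  have k := loc_one hP (clq cs hM hG g₀) (clq cs hM hG g₁) (clq cs hM hG g₂) h.e₀ h.e₁ h.e₂
    a0 a1 h.c₀₁ h.ne
  have k' := loc_one hP (clq cs hM hG g₀) (clq cs hM hG g₁) (clq cs hM hG g₂) h'.e₀ h'.e₁ h'.e₂
    b0 b1 h'.c₀₁ h'.ne
  exact eq_of_Q cs hM
    (Q_one cs hM hG h.e₀ h.e₁ h'.e₂ (em_of cs h12) (em_of cs h20) (em_of cs h12') (em_of cs h20')
      k.1 k.2)
    (Q_one cs hM hG h'.e₀ h'.e₁ h.e₂ (em_of cs h12') (em_of cs h20') (em_of cs h12) (em_of cs h20)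
      k'.1 k'.2)

theorem inj_two (h : Lb cs P v g₀ g₁ g₂ s₀ s₁ s₂) (h' : Lb cs P v' g₀ g₁ g₂ s₀ s₁ s₂)
    (h01 : ¬ Pr cs v g₀ g₁) (h12 : Pr cs v g₁ g₂) (h20 : Pr cs v g₂ g₀)
    (h01' : ¬ Pr cs v' g₀ g₁) (h12' : Pr cs v' g₁ g₂) (h20' : Pr cs v' g₂ g₀) : v = v' := by
  obtain ⟨b, b1, b2⟩ := h12
  obtain ⟨c, c2, c0⟩ := h20
  obtain ⟨b', b1', b2'⟩ := h12'
  obtain ⟨c', c2', c0'⟩ := h20'
  obtain ⟨k1, k2, k3, k4, k5⟩ := loc_two hP (clq cs hM hG g₀) (clq cs hM hG g₁)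
    (clq cs hM hG g₂) h.e₀ h.e₁ h.e₂ b1 b2 c0 c2 h.ne
  obtain ⟨l1, l2, l3, l4, l5⟩ := loc_two hP (clq cs hM hG g₀) (clq cs hM hG g₁)
    (clq cs hM hG g₂) h'.e₀ h'.e₁ h'.e₂ b1' b2' c0' c2' h'.ne
  exact eq_of_Q cs hM
    (Q_two cs hM hG h.e₀ h.e₁ h'.e₀ h'.e₁ (em_of cs h01) (em_of cs h01') k1 k2 l1 l2 k3 k4 k5)
    (Q_two cs hM hG h'.e₀ h'.e₁ h.e₀ h.e₁ (em_of cs h01') (em_of cs h01) l1 l2 k1 k2 l3 l4 l5)

/-- the counting lemma -/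
theorem inj_all (h : Lb cs P v g₀ g₁ g₂ s₀ s₁ s₂) (h' : Lb cs P v' g₀ g₁ g₂ s₀ s₁ s₂)
    (p01 : Pr cs v g₀ g₁ ↔ Pr cs v' g₀ g₁) (p12 : Pr cs v g₁ g₂ ↔ Pr cs v' g₁ g₂)
    (p20 : Pr cs v g₂ g₀ ↔ Pr cs v' g₂ g₀) : v = v' := by
  by_cases q01 : Pr cs v g₀ g₁ <;> by_cases q12 : Pr cs v g₁ g₂ <;> by_cases q20 : Pr cs v g₂ g₀
  · exact absurd ⟨q01, q12, q20⟩ (inj_three cs hM hG hP h)
  · exact inj_two cs hM hG hP h.rot.rot h'.rot.rot q20 q01 q12 (fun x => q20 (p20.2 x))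
      (p01.1 q01) (p12.1 q12)
  · exact inj_two cs hM hG hP h.rot h'.rot q12 q20 q01 (fun x => q12 (p12.2 x))
      (p20.1 q20) (p01.1 q01)
  · exact inj_one cs hM hG hP h h' q01 q12 q20 (p01.1 q01) (fun x => q12 (p12.2 x))
      (fun x => q20 (p20.2 x))
  · exact inj_two cs hM hG hP h h' q01 q12 q20 (fun x => q01 (p01.2 x)) (p12.1 q12) (p20.1 q20)
  · exact inj_one cs hM hG hP h.rot h'.rot q12 q20 q01 (p12.1 q12) (fun x => q20 (p20.2 x))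
      (fun x => q01 (p01.2 x))
  · exact inj_one cs hM hG hP h.rot.rot h'.rot.rot q20 q01 q12 (p20.1 q20)
      (fun x => q01 (p01.2 x)) (fun x => q12 (p12.2 x))
  · exact inj_none cs hM hG hP q01 q12 q20 (fun x => q01 (p01.2 x)) (fun x => q12 (p12.2 x))
      (fun x => q20 (p20.2 x))

end Pool.Agent.Helper41.SV
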