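import Pool.Agent.Helper41.SV.Phi
import Pool.Agent.N13.QC.Up
import Pool.Agent.N13.QC.Ve
import Pool.Agent.N13.QC.Tr

/-!
Products of classes of degree one of full subcomplexes which vanish on the cycles of length four, and
the simplicial volume.
-/

set_option autoImplicit false

open scoped Classical

namespace Pool.Agent.Helper41.SV

open Pool.Agent.W907.SG (W cox)
open Pool.Agent.Q134.SV Pool.Agent.N13.QC

/-- the product `∏ ψ_i (v_{2i}, v_{2i+1})` -/
theorem PR_eq {V : Type} : ∀ (k : ℕ) (ψ : Fin k → V → V → ℝ) (v : Fin (2 * k) → V),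
    PR k ψ v = ∏ i : Fin k, ψ i (v ⟨2 * i, by omega⟩) (v ⟨2 * i + 1, by omega⟩)
  | 0, ψ, v => by simp [PR]
  | k + 1, ψ, v => by
    rw [Fin.prod_univ_succ]
    change ψ 0 (v 0) (v 1) * PR k (fun i => ψ i.succ) (fun i => v i.succ.succ) = _
    rw [PR_eq k]
    rfl

theorem PR_smul {V : Type} (k : ℕ) (c : ℝ) (ψ : Fin k → V → V → ℝ) (v : Fin (2 * k) → V) :
    PR k (fun i s t => c * ψ i s t) v = c ^ k * PR k ψ v := by
  rw [PR_eq, PR_eq, Finset.prod_mul_distrib, Finset.prod_const, Finset.card_univ, Fintype.card_fin]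

/-- The main estimate. -/
theorem main (k : ℕ) (V : Type) [Fintype V] (G : SimpleGraph V) (cl : V → Fin k)
    (φ : Fin k → V → V → ℝ) (B : Fin k → ℝ)
    (hφ : ∀ i, SqFree (GA G fun v => cl v = i) fun a b => φ i a.1 b.1)
    (hB0 : ∀ i, 0 ≤ B i)
    (hB : ∀ (i : Fin k) a b, cl a = i → cl b = i → G.Adj a b → |φ i a b| ≤ B i)
    (a : (Fin (2 * k) → V) → ℝ) (ha : IsCyc (2 * k) G a)
    (H : Subgroup (W G)) (hi : H.index ≠ 0) (hε : H ≤ (par G).ker) :
    (H.index : ℝ) * |∑ v : Fin (2 * k) → V, a v * ∏ i : Fin k,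
        (if cl (v ⟨2 * i, by omega⟩) = i ∧ cl (v ⟨2 * i + 1, by omega⟩) = i then
          φ i (v ⟨2 * i, by omega⟩) (v ⟨2 * i + 1, by omega⟩) else 0)| ≤
      (∏ i, 96 * ((Fintype.card V : ℝ) + 1) ^ 3 * B i) * svol G (2 * k) a H := by
  have key : ∀ i : Fin k, ∃ C : W G → W G → W G → ℝ,
      (∀ s g₀ g₁ g₂, C (gen G s * g₀) (gen G s * g₁) (gen G s * g₂) =
        (if cl s = i then -1 else 1) * C g₀ g₁ g₂) ∧
      (∀ g₀ g₁ g₂ g₃, C g₁ g₂ g₃ - C g₀ g₂ g₃ + C g₀ g₁ g₃ - C g₀ g₁ g₂ = 0) ∧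
      (∀ g h, C g g h = 0 ∧ C g h h = 0) ∧
      (∀ g₀ g₁ g₂, |C g₀ g₁ g₂| ≤ 48 * (Fintype.card V + 1) ^ 3 * B i) ∧
      (∀ s t, G.Adj s t → C 1 (gen G s) (gen G s * gen G t) =
        if cl s = i ∧ cl t = i then 2 * φ i s t else 0) := by
    intro i
    obtain ⟨C, c1, c2, c3, c4, c5⟩ :=
      exists_cochain G (fun v => cl v = i) (φ i) (hφ i) (B i) (hB i) (hB0 i)
    refine ⟨C, fun s g₀ g₁ g₂ => ?_, c2, c3, c4, fun s t hst => ?_⟩
    · rw [c1]
      by_cases h : cl s = i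
      · rw [if_pos h, if_pos h]
      · rw [if_neg h, if_neg h]
    · rw [c5 s t hst]
      by_cases h : cl s = i ∧ cl t = i
      · rw [if_pos h, if_pos h]
      · rw [if_neg h, if_neg h]
  choose C c1 c2 c3 c4 c5 using key
  set K : ℝ := ∏ i, 48 * ((Fintype.card V : ℝ) + 1) ^ 3 * B i with hK
  have hbd : ∀ w, |PC k C w| ≤ K := by
    intro w
    have h := t_B (W G) Unit k (fun i => 48 * ((Fintype.card V : ℝ) + 1) ^ 3 * B i)
      (fun i _ => C i) (fun i g₀ g₁ g₂ => by simpa using c4 i g₀ g₁ g₂) w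
    simpa using h
  have hgood : Good G (2 * k) (PC k C) := by
    obtain ⟨u1, u2, u3⟩ := t_U V G k (fun i s => if cl s = i then -1 else 1) C c1 c2 c3
    refine ⟨fun s w => ?_, u2, ⟨K, hbd⟩, u3⟩
    rw [u1 s w, Finset.prod_eq_single (cl s)]
    · rw [if_pos rfl]
      ring
    · intro j _ hj
      rw [if_neg (fun h => hj h.symm)]
    · intro h
      exact absurd (Finset.mem_univ _) h
  have hcol : ∀ (i : Fin k) (s : V), InP (fun v => 2 * (cl v : ℕ)) (0 + i) s ↔ cl s = i := by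
    intro i s
    change (2 * (cl s : ℕ) = 2 * (0 + i) ∨ 2 * (cl s : ℕ) = 2 * (0 + i) + 1) ↔ _
    constructor
    · intro h
      apply Fin.ext
      omega
    · intro h
      left
      rw [h, zero_add]
  have hval : pair (gen G) a (PC k C) = ∑ v : Fin (2 * k) → V, a v * PR k
      (fun i s t => 2 * if cl s = i ∧ cl t = i then φ i s t else 0) v := by
    refine t_V V G (fun v => 2 * (cl v : ℕ)) k 0 C
      (fun i s t => 2 * if cl s = i ∧ cl t = i then φ i s t else 0) ?_ ?_ ?_ a ha.supp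
    · intro i s g₀ g₁ g₂
      rw [c1 i s]
      simp only [hcol]
    · intro i s t hst
      rw [c5 i s t hst]
      simp only [hcol]
      split_ifs
      · rfl
      · rfl
    · intro i s t h
      simp only [hcol] at h
      rw [if_neg h, mul_zero]
  have h := t_T V G (2 * k) a (PC k C) K hgood hbd H hi hε
  rw [hval] at h
  have hS : ∑ v : Fin (2 * k) → V, a v * PR k
      (fun i s t => 2 * if cl s = i ∧ cl t = i then φ i s t else 0) v =
      2 ^ k * ∑ v : Fin (2 * k) → V, a v * ∏ i : Fin k,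
        (if cl (v ⟨2 * i, by omega⟩) = i ∧ cl (v ⟨2 * i + 1, by omega⟩) = i then
          φ i (v ⟨2 * i, by omega⟩) (v ⟨2 * i + 1, by omega⟩) else 0) := by
    rw [Finset.mul_sum]
    refine Finset.sum_congr rfl fun v _ => ?_
    rw [PR_smul k 2 (fun i s t => if cl s = i ∧ cl t = i then φ i s t else 0) v, PR_eq]
    ring
  rw [hS] at h
  set S : ℝ := ∑ v : Fin (2 * k) → V, a v * ∏ i : Fin k,
        (if cl (v ⟨2 * i, by omega⟩) = i ∧ cl (v ⟨2 * i + 1, by omega⟩) = i then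
          φ i (v ⟨2 * i, by omega⟩) (v ⟨2 * i + 1, by omega⟩) else 0) with hSdef
  have h2 : (0 : ℝ) < 2 ^ k := by positivity
  rw [abs_mul, abs_of_pos h2] at h
  have h3 : (2 : ℝ) ^ (2 * k) = 2 ^ k * 2 ^ k := by rw [two_mul, pow_add]
  have h4 : ∏ i, 96 * ((Fintype.card V : ℝ) + 1) ^ 3 * B i = 2 ^ k * K := by
    rw [hK, show (2 : ℝ) ^ k = ∏ _i : Fin k, 2 by
      rw [Finset.prod_const, Finset.card_univ, Fintype.card_fin], ← Finset.prod_mul_distrib]
    refine Finset.prod_congr rfl fun i _ => ?_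
    ring
  rw [h4]
  rw [h3] at h
  have h5 : 2 ^ k * ((H.index : ℝ) * |S|) ≤ 2 ^ k * (2 ^ k * K * svol G (2 * k) a H) := by
    nlinarith [h]
  exact le_of_mul_le_mul_left h5 h2

end Pool.Agent.Helper41.SV
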