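import Pool.Agent.Helper41.SV.Val

/-!
Cocycles of degree one of the flag complex which vanish on the cycles of length four, their
potentials, and the bounded cochains of degree two which they define.
-/

set_option autoImplicit false

open scoped Classical

namespace Pool.Agent.Helper41.SV

open Pool.Agent.Helper376.LC
open Pool.Agent.W907.SG (W cox)
open Pool.Agent.Q134.SV

/-- `φ` is antisymmetric, additive on triangles and on cycles of length four -/
structure SqFree {V : Type} (G : SimpleGraph V) (φ : V → V → ℝ) : Prop where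
  anti : ∀ a b, φ a b = - φ b a
  tri : ∀ a b c, G.Adj a b → G.Adj b c → G.Adj a c → φ a b + φ b c = φ a c
  sq : ∀ a b z z', G.Adj a z → G.Adj z b → G.Adj a z' → G.Adj z' b →
    φ a z + φ z b = φ a z' + φ z' b

section

variable {V : Type} (G : SimpleGraph V) (φ : V → V → ℝ)

/-- the potential of two vertices -/
noncomputable def P0 (a b : V) : ℝ :=
  if G.Adj a b then φ a b
  else if h : ∃ z, G.Adj a z ∧ G.Adj z b then φ a (Classical.choose h) + φ (Classical.choose h) b
  else 0

/-- the potential -/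
noncomputable def PP : Option V → Option V → ℝ
  | some a, some b => P0 G φ a b
  | _, _ => 0

variable {G φ}

theorem P0_adj {a b : V} (h : G.Adj a b) : P0 G φ a b = φ a b := if_pos h

variable (hφ : SqFree G φ)

include hφ

theorem P0_mid {a z b : V} (h1 : G.Adj a z) (h2 : G.Adj z b) : P0 G φ a b = φ a z + φ z b := by
  unfold P0
  split_ifs with h h'
  · exact (hφ.tri a z b h1 h2 h).symm
  · exact hφ.sq _ _ _ _ (Classical.choose_spec h').1 (Classical.choose_spec h').2 h1 h2
  · exact absurd ⟨z, h1, h2⟩ h'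

theorem P0_anti (a b : V) : P0 G φ a b = - P0 G φ b a := by
  by_cases h : G.Adj a b
  · rw [P0_adj h, P0_adj h.symm, hφ.anti]
  · by_cases h' : ∃ z, G.Adj a z ∧ G.Adj z b
    · obtain ⟨z, h1, h2⟩ := h'
      rw [P0_mid hφ h1 h2, P0_mid hφ h2.symm h1.symm, hφ.anti a z, hφ.anti z b]
      ring
    · have h'' : ¬ ∃ z, G.Adj b z ∧ G.Adj z a := fun ⟨z, h1, h2⟩ => h' ⟨z, h2.symm, h1.symm⟩
      unfold P0
      rw [if_neg h, dif_neg h', if_neg (fun e => h e.symm), dif_neg h'']
      simp

theorem PP_pot : Pot G (PP G φ) := by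
  refine ⟨?_, ?_, ?_⟩
  · rintro (_ | a) (_ | b)
    · simp [PP]
    · simp [PP]
    · simp [PP]
    · exact P0_anti hφ a b
  · rintro (_ | b) <;> rfl
  · intro z a b ha hb
    have hs : ∀ x, P0 G φ x x = 0 := fun x => by
      have := P0_anti hφ x x
      linarith
    change P0 G φ a b = P0 G φ a z + P0 G φ z b
    rcases ha with ha | ha
    · rw [ha, hs]
      ring
    · rcases hb with hb | hb
      · rw [hb, hs]
        ring
      · rw [P0_mid hφ ha hb.symm, P0_adj ha, P0_adj hb.symm]

theorem PP_le {B : ℝ} (hB : ∀ a b, G.Adj a b → |φ a b| ≤ B) (hB0 : 0 ≤ B) (a b : Option V) :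
    |PP G φ a b| ≤ 2 * B := by
  have h0 : |(0 : ℝ)| ≤ 2 * B := by
    rw [abs_zero]
    linarith
  rcases a with _ | a
  · exact h0
  · rcases b with _ | b
    · exact h0
    · change |P0 G φ a b| ≤ 2 * B
      by_cases h : G.Adj a b
      · rw [P0_adj h]
        have := hB a b h
        linarith
      · by_cases h' : ∃ z, G.Adj a z ∧ G.Adj z b
        · obtain ⟨z, h1, h2⟩ := h'
          rw [P0_mid hφ h1 h2]
          have := abs_add_le (φ a z) (φ z b)
          have := hB _ _ h1
          have := hB _ _ h2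
          linarith
        · unfold P0
          rw [if_neg h, dif_neg h']
          exact h0

end

section

variable {V : Type} [Fintype V] (G : SimpleGraph V) (A : V → Prop)

/-- the full subgraph -/
abbrev GA : SimpleGraph {v // A v} := G.comap Subtype.val

/-- the retraction onto the special subgroup of `A`, on the generators -/
noncomputable def rA (v : V) : W (GA G A) := if h : A v then gen (GA G A) ⟨v, h⟩ else 1

/-- the retraction onto the special subgroup of `A` -/
noncomputable def piA : W G →* W (GA G A) :=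
  lft G (rA G A)
    (fun x => by
      unfold rA
      split_ifs
      · exact gen_sq _ _
      · exact one_mul _)
    (fun x y h => by
      unfold rA
      split_ifs
      · exact gen_comm _ h
      · rw [one_mul, mul_one]
      · rw [one_mul, mul_one]
      · rfl)

omit [Fintype V] in
theorem piA_gen (v : V) : piA G A (gen G v) = rA G A v := lft_gen _ _ _ _ _

omit [Fintype V] in
theorem rA_pos {v : V} (h : A v) : rA G A v = gen (GA G A) ⟨v, h⟩ := dif_pos h

omit [Fintype V] in
theorem rA_neg {v : V} (h : ¬ A v) : rA G A v = 1 := dif_neg h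

/-- The bounded cochain of degree two of a cocycle of a full subcomplex which vanishes on the cycles
of length four. -/
theorem exists_cochain (φ : V → V → ℝ) (hφ : SqFree (GA G A) fun a b => φ a.1 b.1) (B : ℝ)
    (hB : ∀ a b, A a → A b → G.Adj a b → |φ a b| ≤ B) (hB0 : 0 ≤ B) :
    ∃ C : W G → W G → W G → ℝ,
      (∀ s g₀ g₁ g₂, C (gen G s * g₀) (gen G s * g₁) (gen G s * g₂) =
        (if A s then -1 else 1) * C g₀ g₁ g₂) ∧
      (∀ g₀ g₁ g₂ g₃, C g₁ g₂ g₃ - C g₀ g₂ g₃ + C g₀ g₁ g₃ - C g₀ g₁ g₂ = 0) ∧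
      (∀ g h, C g g h = 0 ∧ C g h h = 0) ∧
      (∀ g₀ g₁ g₂, |C g₀ g₁ g₂| ≤ 48 * (Fintype.card V + 1) ^ 3 * B) ∧
      (∀ s t, G.Adj s t → C 1 (gen G s) (gen G s * gen G t) =
        if A s ∧ A t then 2 * φ s t else 0) := by
  have hP := PP_pot hφ
  refine ⟨fun g₀ g₁ g₂ => cc (PP (GA G A) fun a b => φ a.1 b.1) (piA G A g₀) (piA G A g₁)
    (piA G A g₂), ?_, ?_, ?_, ?_, ?_⟩
  · intro s g₀ g₁ g₂
    simp only [map_mul, piA_gen]
    by_cases h : A s
    · rw [rA_pos G A h, if_pos h, cc_gen]
      ring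
    · rw [rA_neg G A h, if_neg h]
      simp
  · intro g₀ g₁ g₂ g₃
    exact cc_coc hP _ _ _ _
  · intro g h
    exact cc_deg hP _ _
  · intro g₀ g₁ g₂
    refine (cc_bound hP (B := 2 * B) (PP_le hφ (fun a b h => hB _ _ a.2 b.2 h) hB0) _ _ _).trans ?_
    have h1 : (Fintype.card {v // A v} : ℝ) ≤ Fintype.card V := by
      exact_mod_cast Fintype.card_subtype_le A
    have h2 : ((Fintype.card {v // A v} : ℝ) + 1) ^ 3 ≤ ((Fintype.card V : ℝ) + 1) ^ 3 :=
      pow_le_pow_left₀ (by positivity) (by linarith) 3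
    have h3 := mul_le_mul_of_nonneg_right h2 (by positivity : (0 : ℝ) ≤ 48 * B)
    linarith
  · intro s t hst
    simp only [map_mul, map_one, piA_gen]
    by_cases hs : A s
    · by_cases ht : A t
      · rw [rA_pos G A hs, rA_pos G A ht, if_pos ⟨hs, ht⟩,
          cc_val hP (s := ⟨s, hs⟩) (t := ⟨t, ht⟩) hst]
        congr 1
        exact P0_adj (G := GA G A) (φ := fun a b => φ a.1 b.1) (a := ⟨s, hs⟩) (b := ⟨t, ht⟩) hst
      · rw [rA_neg G A ht, if_neg (fun h => ht h.2), mul_one]
        exact (cc_deg hP _ _).2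
    · rw [rA_neg G A hs, if_neg (fun h => hs h.1)]
      exact (cc_deg hP _ _).1

end

end Pool.Agent.Helper41.SV
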