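import Pool.Agent.Helper41.SV.Cochain

/-!
The value of the cochain at the squares of the Davis complex.
-/

set_option autoImplicit false

open scoped Classical

namespace Pool.Agent.Helper41.SV

open Pool.Agent.Helper376.LC
open Pool.Agent.W907.SG (W cox)
open Pool.Agent.Q134.SV

variable {V : Type} {G : SimpleGraph V}

theorem gen_eq (s : V) : gen G s = (csG G).simple s := rfl

theorem gen_inj {s t : V} (h : gen G s = gen G t) : s = t := simple_inj' (csG G) (hMG G) h

theorem gen_conj {s t : V} (h : G.Adj s t) : gen G s * gen G t * (gen G s)⁻¹ = gen G t := by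
  rw [gen_comm G h, mul_inv_cancel_right]

theorem eq_of_Ninv {u v : W G} (h : Ninv (csG G) v = Ninv (csG G) u) : v = u := by
  by_contra hne
  obtain ⟨i, hi⟩ := Sp_ex (csG G) hne
  unfold Sp at hi
  rw [mem_Wl', h] at hi
  tauto

theorem Ninv_gen (s : V) : Ninv (csG G) (gen G s) = {gen G s} := by
  have := Wl_mul_simple (csG G) 1 s
  rw [one_mul, Wl_one'] at this
  rw [gen_eq, this]
  simp

theorem mem_Ninv_two {s t : V} (h : G.Adj s t) (r : W G) :
    r ∈ Ninv (csG G) (gen G s * gen G t) ↔ r = gen G s ∨ r = gen G t := by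
  have hne : gen G s ≠ gen G t := fun e => h.ne (gen_inj e)
  have h1 := mem_Ninv_mul_simple' (csG G) (gen G s) r t
  rw [← gen_eq, gen_conj h, Ninv_gen, Set.mem_singleton_iff] at h1
  rw [h1]
  constructor
  · rintro (⟨a, -⟩ | ⟨-, a⟩)
    · exact Or.inl a
    · exact Or.inr a
  · rintro (a | a)
    · exact Or.inl ⟨a, a ▸ hne⟩
    · exact Or.inr ⟨a ▸ hne.symm, a⟩

theorem four_of {s t : V} (h : G.Adj s t) {v : W G}
    (hv : ∀ r ∈ Ninv (csG G) v, r = gen G s ∨ r = gen G t) :
    v = 1 ∨ v = gen G s ∨ v = gen G t ∨ v = gen G s * gen G t := by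
  by_cases a : gen G s ∈ Ninv (csG G) v <;> by_cases b : gen G t ∈ Ninv (csG G) v
  · right; right; right
    apply eq_of_Ninv
    ext r
    rw [mem_Ninv_two h]
    exact ⟨hv r, fun e => e.elim (fun e => e ▸ a) fun e => e ▸ b⟩
  · right; left
    apply eq_of_Ninv
    ext r
    rw [Ninv_gen, Set.mem_singleton_iff]
    exact ⟨fun e => (hv r e).elim id fun e' => absurd (e' ▸ e) b, fun e => e ▸ a⟩
  · right; right; left
    apply eq_of_Ninv
    ext r
    rw [Ninv_gen, Set.mem_singleton_iff]
    exact ⟨fun e => (hv r e).elim (fun e' => absurd (e' ▸ e) a) id, fun e => e ▸ b⟩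
  · left
    apply eq_of_Ninv
    ext r
    rw [Ninv_one']
    constructor
    · intro e
      rcases hv r e with e' | e'
      · exact absurd (e' ▸ e) a
      · exact absurd (e' ▸ e) b
    · exact fun e => e.elim

theorem desc_iff (w : W G) (i : V) : (csG G).IsLeftDescent w i ↔ gen G i ∈ Ninv (csG G) w :=
  (simple_mem_Ninv' (csG G) w i).symm

variable [Fintype V]

theorem lab_gen (s : V) : lab G (gen G s) = some s := by
  rcases h : lab G (gen G s) with _ | i
  · have h1 := lab_none G h
    have h2 := congrArg (par G) h1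
    rw [par_gen, map_one] at h2
    exact absurd h2 (by decide)
  · have h1 := (lab_some G h).1
    rw [desc_iff, Ninv_gen, Set.mem_singleton_iff] at h1
    rw [gen_inj h1]

theorem lab_two {s t : V} (h : G.Adj s t) :
    lab G (gen G s * gen G t) = some s ∨ lab G (gen G s * gen G t) = some t := by
  rcases h' : lab G (gen G s * gen G t) with _ | i
  · have h1 := lab_none G h'
    exfalso
    have h2 : gen G s ∈ Ninv (csG G) (gen G s * gen G t) := (mem_Ninv_two h _).2 (Or.inl rfl)
    rw [h1, Ninv_one'] at h2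
    exact h2
  · have h1 := (lab_some G h').1
    rw [desc_iff, mem_Ninv_two h] at h1
    rcases h1 with h1 | h1
    · exact Or.inl (by rw [gen_inj h1])
    · exact Or.inr (by rw [gen_inj h1])

variable {P : Option V → Option V → ℝ} (hP : Pot G P)

include hP

theorem lt_zero {g₀ g₁ g₂ v r : W G} (h₀ : r ∈ Wl (csG G) v g₀) (h₁ : r ∈ Wl (csG G) v g₁)
    (h₂ : r ∈ Wl (csG G) v g₂) : lt P g₀ g₁ g₂ v = 0 := by
  obtain ⟨i, i0, i1, i2⟩ := ex3 (csG G) (hMG G) h₀ h₁ h₂
  have hn : ∀ g : W G, r ∈ Wl (csG G) v g → ∃ s, lab G (v⁻¹ * g) = some s ∧ Sp (csG G) v g s := by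
    intro g hg
    rcases e : lab G (v⁻¹ * g) with _ | s
    · have e' := inv_mul_eq_one.1 (lab_none G e)
      rw [← e'] at hg
      exact absurd hg (not_mem_Wl_self (csG G) v r)
    · exact ⟨s, rfl, (Sp_iff _ _ _ _).2 (lab_some G e).1⟩
  obtain ⟨s₀, l0, k0⟩ := hn g₀ h₀
  obtain ⟨s₁, l1, k1⟩ := hn g₁ h₁
  obtain ⟨s₂, l2, k2⟩ := hn g₂ h₂
  unfold lt
  rw [l0, l1, l2]
  exact loc_triple hP (clq (csG G) (hMG G) (hGG G) g₀) (clq (csG G) (hMG G) (hGG G) g₁)
    (clq (csG G) (hMG G) (hGG G) g₂) k0 k1 k2 i0 i1 i2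

theorem cc_val {s t : V} (h : G.Adj s t) :
    cc P 1 (gen G s) (gen G s * gen G t) = 2 * P (some s) (some t) := by
  have hne : gen G s ≠ gen G t := fun e => h.ne (gen_inj e)
  have hps : par G (gen G s) = -1 := par_gen G s
  have hpt : par G (gen G t) = -1 := par_gen G t
  have hpst : par G (gen G s * gen G t) = 1 := by
    rw [map_mul, hps, hpt]
    simp
  have d1 : (1 : W G) ≠ gen G s := fun e => by
    have := congrArg (par G) e
    rw [hps, map_one] at this
    exact absurd this (by decide)
  have d2 : (1 : W G) ≠ gen G t := fun e => by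
    have := congrArg (par G) e
    rw [hpt, map_one] at this
    exact absurd this (by decide)
  have d3 : (1 : W G) ≠ gen G s * gen G t := fun e => by
    apply hne
    rw [eq_comm, mul_eq_one_iff_eq_inv] at e
    rw [e]
    exact inv_eq_of_mul_eq_one_left (gen_sq G t)
  have d4 : gen G s ≠ gen G s * gen G t := fun e => by
    have := congrArg (par G) e
    rw [hps, hpst] at this
    exact absurd this (by decide)
  have d5 : gen G t ≠ gen G s * gen G t := fun e => by
    have := congrArg (par G) e
    rw [hpt, hpst] at this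
    exact absurd this (by decide)
  have hsub : (Function.support fun v : W G => ep G v *
      lt P 1 (gen G s) (gen G s * gen G t) v) ⊆
      (({1, gen G s, gen G t, gen G s * gen G t} : Finset (W G)) : Set (W G)) := by
    intro v hv
    by_contra hcon
    apply right_ne_zero_of_mul hv
    have h4 : ¬ ∀ r ∈ Ninv (csG G) v, r = gen G s ∨ r = gen G t := by
      intro h5
      apply hcon
      have := four_of h h5
      simpa using this
    push Not at h4
    obtain ⟨r, hr, r1, r2⟩ := h4
    refine lt_zero hP (r := r) ?_ ?_ ?_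
    · rw [mem_Wl', Ninv_one']
      exact Or.inl ⟨hr, fun e => e⟩
    · rw [mem_Wl', Ninv_gen]
      exact Or.inl ⟨hr, r1⟩
    · rw [mem_Wl', mem_Ninv_two h]
      exact Or.inl ⟨hr, fun e => e.elim r1 r2⟩
  unfold cc
  rw [finsum_eq_sum_of_support_subset _ hsub,
    Finset.sum_insert (by simp only [Finset.mem_insert, Finset.mem_singleton]; tauto),
    Finset.sum_insert (by simp only [Finset.mem_insert, Finset.mem_singleton]; tauto),
    Finset.sum_insert (by simp only [Finset.mem_singleton]; exact d5), Finset.sum_singleton]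
  have e1 : ep G (1 : W G) = 1 := by unfold ep; rw [map_one]; simp
  have e2 : ep G (gen G s) = -1 := by unfold ep; rw [hps]; simp
  have e3 : ep G (gen G t) = -1 := by unfold ep; rw [hpt]; simp
  have e4 : ep G (gen G s * gen G t) = 1 := by unfold ep; rw [hpst]; simp
  have is : (gen G s)⁻¹ = gen G s := inv_eq_of_mul_eq_one_left (gen_sq G s)
  have it : (gen G t)⁻¹ = gen G t := inv_eq_of_mul_eq_one_left (gen_sq G t)
  have hst : gen G s * gen G t = gen G t * gen G s := gen_comm G h
  have f1 : lt P 1 (gen G s) (gen G s * gen G t) 1 = FF P none (some s)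
      (lab G (gen G s * gen G t)) := by
    unfold lt
    rw [inv_one, one_mul, one_mul, one_mul, lab_one, lab_gen]
  have f2 : lt P 1 (gen G s) (gen G s * gen G t) (gen G s) = FF P (some s) none (some t) := by
    unfold lt
    rw [is, mul_one, ← mul_assoc, gen_sq, one_mul, lab_one, lab_gen, lab_gen]
  have f3 : lt P 1 (gen G s) (gen G s * gen G t) (gen G t) = FF P (some t)
      (lab G (gen G s * gen G t)) (some s) := by
    unfold lt
    have a1 : gen G t * (gen G s * gen G t) = gen G s := by
      rw [hst, ← mul_assoc, gen_sq, one_mul]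
    rw [it, mul_one, a1, ← hst, lab_gen, lab_gen]
  have f4 : lt P 1 (gen G s) (gen G s * gen G t) (gen G s * gen G t) =
      FF P (lab G (gen G s * gen G t)) (some t) none := by
    unfold lt
    have a1 : (gen G s * gen G t)⁻¹ = gen G s * gen G t := by
      rw [mul_inv_rev, is, it, hst]
    have a2 : gen G s * gen G t * gen G s = gen G t := by
      rw [hst, mul_assoc, gen_sq, mul_one]
    have a3 : gen G s * gen G t * (gen G s * gen G t) = 1 := by
      rw [← mul_assoc, a2, gen_sq]
    rw [a1, mul_one, a2, a3, lab_one, lab_gen]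
  rw [f1, f2, f3, f4, e1, e2, e3, e4]
  have n1 : ∀ b, P b none = 0 := fun b => by rw [hP.anti, hP.none, neg_zero]
  unfold FF
  rw [hP.none, n1, n1, hP.none, n1, hP.none]
  rcases lab_two h with hc | hc <;> rw [hc]
  · rw [hP.self, hP.anti (some t) (some s)]
    ring
  · rw [hP.self, hP.anti (some t) (some s)]
    ring

end Pool.Agent.Helper41.SV
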