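import Pool.Agent.Helper376.LC.Rigid

/-!
Walls of right-angled Coxeter groups: the walls adjacent to two elements.

`Sp cs v g i`: the wall of the edge from `v` to `v * s_i` separates `v` from `g`.
-/

set_option autoImplicit false

namespace Pool.Agent.Helper41.SV

open Pool.Agent.Helper376.LC

variable {B : Type*} {M : CoxeterMatrix B} {W : Type*} [Group W] (cs : CoxeterSystem M W)

/-- the wall between `v` and `v * s_i` separates `v` from `g` -/
def Sp (v g : W) (i : B) : Prop := v * cs.simple i * v⁻¹ ∈ Wl cs v g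

theorem Sp_iff (v g : W) (i : B) : Sp cs v g i ↔ cs.IsLeftDescent (v⁻¹ * g) i := by
  unfold Sp
  have h := mem_Wl_mul_left cs v 1 (v⁻¹ * g) (v * cs.simple i * v⁻¹)
  rw [mul_one, mul_inv_cancel_left, Wl_one'] at h
  rw [h]
  have e : v⁻¹ * (v * cs.simple i * v⁻¹) * v = cs.simple i := by group
  rw [e, simple_mem_Ninv']

theorem Sp_comm (hM : RightAngled M) {v g : W} {i j : B} (hij : i ≠ j) (hi : Sp cs v g i)
    (hj : Sp cs v g j) : M i j = 2 :=
  descents_commute cs hM (v⁻¹ * g) i j hij ((Sp_iff cs v g i).1 hi) ((Sp_iff cs v g j).1 hj)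

theorem Sp_ex {v g : W} (h : v ≠ g) : ∃ i, Sp cs v g i := by
  have hne : v⁻¹ * g ≠ 1 := fun h' => h (inv_mul_eq_one.1 h')
  obtain ⟨i, hi⟩ := cs.exists_leftDescent_of_ne_one hne
  exact ⟨i, (Sp_iff cs v g i).2 hi⟩

theorem mem_Wl_shift (v g t : W) : t ∈ Wl cs v g ↔ v⁻¹ * t * v ∈ Ninv cs (v⁻¹ * g) := by
  have h := mem_Wl_mul_left cs v 1 (v⁻¹ * g) t
  rwa [mul_one, mul_inv_cancel_left, Wl_one'] at h

/-- If a wall separates `v` from `x` and `y` then a wall adjacent to `v` does. -/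
theorem ex2 (hM : RightAngled M) {v x y t : W} (hx : t ∈ Wl cs v x) (hy : t ∈ Wl cs v y) :
    ∃ i, Sp cs v x i ∧ Sp cs v y i := by
  rw [mem_Wl_shift] at hx hy
  obtain ⟨i, h1, h2⟩ := exists_simple_of_inter cs hM (v⁻¹ * x) (v⁻¹ * y) ⟨_, hx, hy⟩
  exact ⟨i, (Sp_iff cs v x i).2 ((simple_mem_Ninv' cs _ i).1 h1),
    (Sp_iff cs v y i).2 ((simple_mem_Ninv' cs _ i).1 h2)⟩

/-- If a wall separates `v` from `x`, `y` and `z` then a wall adjacent to `v` does. -/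
theorem ex3 (hM : RightAngled M) {v x y z t : W} (hx : t ∈ Wl cs v x) (hy : t ∈ Wl cs v y)
    (hz : t ∈ Wl cs v z) : ∃ i, Sp cs v x i ∧ Sp cs v y i ∧ Sp cs v z i := by
  obtain ⟨m, hm⟩ := exists_median cs hM v x y
  have h1 : t ∈ Wl cs v m := by rw [hm]; exact ⟨hx, hy⟩
  obtain ⟨i, hi, hi'⟩ := ex2 cs hM h1 hz
  have h2 : v * cs.simple i * v⁻¹ ∈ Wl cs v x ∩ Wl cs v y := hm ▸ hi
  exact ⟨i, h2.1, h2.2, hi'⟩

theorem not_mem_Wl_self (v t : W) : t ∉ Wl cs v v := by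
  rw [mem_Wl']
  tauto

/-- the sides of a wall -/
theorem Wl_tri {x y z t : W} : t ∈ Wl cs x z ↔ ¬ (t ∈ Wl cs x y ↔ t ∈ Wl cs y z) := by
  rw [mem_Wl_trans' cs x y z]
  tauto

theorem Wl_symm {x y t : W} : t ∈ Wl cs x y ↔ t ∈ Wl cs y x := by
  rw [Wl_comm']

/-- crossing walls have commuting types -/
theorem cross (hM : RightAngled M) {v w a b c d : W} {i j : B}
    (hb : v * cs.simple i * v⁻¹ ∈ Wl cs a b) (hb' : w * cs.simple j * w⁻¹ ∉ Wl cs a b)
    (hc : v * cs.simple i * v⁻¹ ∉ Wl cs a c) (hc' : w * cs.simple j * w⁻¹ ∈ Wl cs a c)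
    (hd : v * cs.simple i * v⁻¹ ∈ Wl cs a d) (hd' : w * cs.simple j * w⁻¹ ∈ Wl cs a d) :
    M i j = 2 := by
  obtain ⟨x, p, q, -, h2, e1, e2⟩ := crossing cs hM _ _ a b c d hb hb' hc hc' hd hd'
  rw [type_unique cs hM v x i p e1, type_unique cs hM w x j q e2]
  exact h2

/-- Let `R = v r v⁻¹` separate `v` from `v'`, and let `T' = v' t v'⁻¹`, `K = v a v⁻¹` be walls
adjacent to `v'` and `v`, where `t` does not commute with `r` and `a`. -/
theorem no_wall (hM : RightAngled M) {v v' p q₁ q₂ : W} {r t a : B}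
    (hrt : M t r ≠ 2) (hrt' : t ≠ r) (hat : M t a ≠ 2) (hat' : t ≠ a)
    (hR : Sp cs v v' r) (hRp : ¬ Sp cs v p r) (hTp : Sp cs v' p t)
    (hKq₁ : Sp cs v q₁ a) (hTq₁ : ¬ Sp cs v' q₁ t)
    (hKq₂ : ¬ Sp cs v q₂ a) (hTq₂ : ¬ Sp cs v' q₂ t) : False := by
  unfold Sp at hR hRp hTp hKq₁ hTq₁ hKq₂ hTq₂
  -- `T'` separates `v` from `v'`
  have hTv : v' * cs.simple t * v'⁻¹ ∈ Wl cs v' v := by
    by_contra hcon
    refine hrt (cross cs hM (v := v') (w := v) (a := v') (b := v' * cs.simple t) (c := v) (d := p)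
      (i := t) (j := r) ?_ ?_ hcon ?_ hTp ?_)
    · rw [Wl_mul_simple]; rfl
    · rw [Wl_mul_simple, Set.mem_singleton_iff]
      intro h
      exact hrt' (type_unique cs hM v v' r t h).symm
    · rw [Wl_symm]; exact hR
    · rw [Wl_tri cs (y := v), Wl_symm cs (x := v')]
      tauto
  refine hat (cross cs hM (v := v') (w := v) (a := v) (b := q₂) (c := v * cs.simple a) (d := q₁)
    (i := t) (j := a) ?_ hKq₂ ?_ ?_ ?_ hKq₁)
  · rw [Wl_tri cs (y := v'), Wl_symm cs (x := v)]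
    tauto
  · rw [Wl_mul_simple, Set.mem_singleton_iff]
    intro h
    exact hat' (type_unique cs hM v' v t a h)
  · rw [Wl_mul_simple]; rfl
  · rw [Wl_tri cs (y := v'), Wl_symm cs (x := v)]
    tauto

end Pool.Agent.Helper41.SV
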